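import Mathlib

set_option autoImplicit false

/-!
# MP_141f81, Section 8: coloured corners in `F_2^m`, and the averaging lemma
-/

namespace Pool.Agent.helper57.MF

open Finset

/-- **Coloured corners theorem in `F_2^m`.** -/
theorem corner_colour (k : ℕ) {δ : ℝ} (hδ : 0 < δ) : ∃ m0 : ℕ, ∀ m, m0 ≤ m →
    ∀ P : Finset ((Fin m → ZMod 2) × (Fin m → ZMod 2)),
      δ * (Fintype.card (Fin m → ZMod 2) : ℝ) ^ 2 ≤ P.card →
      ∀ χ : (Fin m → ZMod 2) × (Fin m → ZMod 2) → ℕ, (∀ q ∈ P, χ q < k) →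
      ∃ a b d : Fin m → ZMod 2, d ≠ 0 ∧ (a, b) ∈ P ∧ (a + d, b) ∈ P ∧ (a, b + d) ∈ P ∧
        χ (a + d, b) = χ (a, b) ∧ χ (a, b + d) = χ (a, b) := by
  classical
  have hk1 : (0 : ℝ) < (k : ℝ) + 1 := by positivity
  refine ⟨cornersTheoremBound (δ / (k + 1)), fun m hm P hP χ hχ => ?_⟩
  have hcard : cornersTheoremBound (δ / (k + 1)) ≤ Fintype.card (Fin m → ZMod 2) := by
    have h1 : Fintype.card (Fin m → ZMod 2) = 2 ^ m := by simp [ZMod.card]
    rw [h1]
    exact hm.trans Nat.lt_two_pow_self.le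
  have hV : (0 : ℝ) < (Fintype.card (Fin m → ZMod 2) : ℝ) ^ 2 := by
    have : 0 < Fintype.card (Fin m → ZMod 2) := Fintype.card_pos
    positivity
  -- a popular colour
  have hpop : ∃ c ∈ Finset.range (k + 1), δ / (k + 1) * (Fintype.card (Fin m → ZMod 2) : ℝ) ^ 2 ≤
      ((P.filter (fun q => χ q = c)).card : ℝ) := by
    by_contra hcon
    push Not at hcon
    have h1 : P.card = ∑ c ∈ Finset.range (k + 1), (P.filter (fun q => χ q = c)).card :=
      Finset.card_eq_sum_card_fiberwise (fun q hq => by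
        have := hχ q hq
        simp only [Finset.coe_range, Set.mem_Iio]
        omega)
    have h2 : (P.card : ℝ) < ∑ _c ∈ Finset.range (k + 1),
        δ / (k + 1) * (Fintype.card (Fin m → ZMod 2) : ℝ) ^ 2 := by
      rw [h1]
      push_cast
      exact Finset.sum_lt_sum_of_nonempty ⟨0, by simp⟩ (fun c hc => hcon c hc)
    rw [Finset.sum_const, Finset.card_range, nsmul_eq_mul] at h2
    push_cast at h2
    have h3 : ((k : ℝ) + 1) * (δ / (k + 1) * (Fintype.card (Fin m → ZMod 2) : ℝ) ^ 2) =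
        δ * (Fintype.card (Fin m → ZMod 2) : ℝ) ^ 2 := by
      field_simp
    linarith
  obtain ⟨c, -, hc⟩ := hpop
  have hcf := corners_theorem (δ / (k + 1)) (by positivity) hcard _ hc
  rw [IsCornerFree] at hcf
  push Not at hcf
  obtain ⟨x1, y1, x2, y2, hco, hne⟩ := hcf
  have m1 := hco.fst_fst_mem
  have m2 := hco.fst_snd_mem
  have m3 := hco.snd_fst_mem
  have m4 := hco.add_eq_add
  simp only [Finset.coe_filter, Set.mem_ofPred_eq] at m1 m2 m3
  have two : ∀ z : Fin m → ZMod 2, z + z = 0 := fun z => by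
    funext i
    exact CharTwo.add_self_eq_zero _
  have e1 : x1 + (x1 + x2) = x2 := by rw [← add_assoc, two, zero_add]
  have e2 : y1 + (x1 + x2) = y2 := by
    calc y1 + (x1 + x2) = x1 + (x2 + y1) := by abel
      _ = x1 + (x1 + y2) := by rw [m4]
      _ = y2 := by rw [← add_assoc, two, zero_add]
  refine ⟨x1, y1, x1 + x2, ?_, m1.1, ?_, ?_, ?_, ?_⟩
  · intro h0
    apply hne
    calc x1 = x1 + (x1 + x2) := by rw [h0, add_zero]
      _ = x2 := e1
  · rw [e1]; exact m3.1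
  · rw [e2]; exact m2.1
  · rw [e1, m1.2]; exact m3.2
  · rw [e2, m1.2]; exact m2.2

/-- the form with colours in `Fin k` -/
theorem corners {δ : ℝ} (hδ : 0 < δ) (k : ℕ) : ∃ m : ℕ,
    ∀ (P : Finset ((Fin m → ZMod 2) × (Fin m → ZMod 2))) (col : (Fin m → ZMod 2) × (Fin m → ZMod 2) → Fin k),
      δ * (4 : ℝ) ^ m ≤ P.card → ∃ a b d : Fin m → ZMod 2, d ≠ 0 ∧ (a, b) ∈ P ∧ (a + d, b) ∈ P ∧
        (a, b + d) ∈ P ∧ col (a, b) = col (a + d, b) ∧ col (a, b) = col (a, b + d) := by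
  obtain ⟨m, hm⟩ := corner_colour k hδ
  refine ⟨m, fun P col hP => ?_⟩
  have h1 : (Fintype.card (Fin m → ZMod 2) : ℝ) ^ 2 = (4 : ℝ) ^ m := by
    have : Fintype.card (Fin m → ZMod 2) = 2 ^ m := by simp [ZMod.card]
    rw [this]
    push_cast
    rw [← pow_mul, mul_comm, pow_mul]
    norm_num
  obtain ⟨a, b, d, hd, m1, m2, m3, c1, c2⟩ := hm m le_rfl P (by rw [h1]; exact hP)
    (fun q => (col q : ℕ)) (fun q _ => (col q).2)
  exact ⟨a, b, d, hd, m1, m2, m3, (Fin.ext c1).symm, (Fin.ext c2).symm⟩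

/-- **Averaging.** The elements of `X`, `Y` can be moved by `s a` into `D1`, `D2` up to an error `κ`; balls contain at
most `B` elements. Then two elements `d1, d2` serve many pairs `p`. -/
theorem average {G : Type*} [AddCommGroup G] {X Y : Type*} [Fintype X] [Fintype Y] {m : ℕ} (N : G → ℕ)
    (A : Finset (X × Y)) (vx : X → G) (vy : Y → G) (D1 D2 : Finset G) (s : (Fin m → ZMod 2) → G) (κ B : ℕ)
    (h1 : ∀ x a, ∃ d ∈ D1, N (vx x + s a + d) ≤ κ) (h2 : ∀ y b, ∃ d ∈ D2, N (vy y + s b + d) ≤ κ)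
    (b1 : ∀ g : G, (Finset.univ.filter (fun x : X => N (vx x + g) ≤ κ)).card ≤ B)
    (b2 : ∀ g : G, (Finset.univ.filter (fun y : Y => N (vy y + g) ≤ κ)).card ≤ B) :
    ∃ (d1 d2 : G) (P : Finset ((Fin m → ZMod 2) × (Fin m → ZMod 2))),
      A.card * 4 ^ m ≤ D1.card * D2.card * B * B * P.card ∧
      ∀ p ∈ P, ∃ q ∈ A, N (vx q.1 + s p.1 + d1) ≤ κ ∧ N (vy q.2 + s p.2 + d2) ≤ κ := by
  classical
  rcases A.eq_empty_or_nonempty with rfl | ⟨w0, hw0⟩
  · exact ⟨0, 0, ∅, by simp, by simp⟩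
  set good : G × G → (Fin m → ZMod 2) × (Fin m → ZMod 2) → Prop := fun d p =>
    ∃ q ∈ A, N (vx q.1 + s p.1 + d.1) ≤ κ ∧ N (vy q.2 + s p.2 + d.2) ≤ κ with hgood
  have hc1 : ∀ p : (Fin m → ZMod 2) × (Fin m → ZMod 2),
      A.card ≤ B * B * ((D1 ×ˢ D2).filter (fun d => good d p)).card := by
    intro p
    choose f hf hf' using fun x => h1 x p.1
    choose g hg hg' using fun y => h2 y p.2
    refine Finset.card_le_mul_card_image_of_maps_to (f := fun w : X × Y => (f w.1, g w.2))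
      (fun w hw => ?_) (B * B) (fun d hd => ?_)
    · rw [Finset.mem_filter, Finset.mem_product]
      exact ⟨⟨hf w.1, hg w.2⟩, w, hw, hf' w.1, hg' w.2⟩
    · have hsub : A.filter (fun w : X × Y => (f w.1, g w.2) = d) ⊆
          (Finset.univ.filter (fun x : X => N (vx x + (s p.1 + d.1)) ≤ κ)) ×ˢ
            (Finset.univ.filter (fun y : Y => N (vy y + (s p.2 + d.2)) ≤ κ)) := by
        intro w hw
        rw [Finset.mem_filter] at hw
        obtain ⟨-, he⟩ := hw
        have e1 : f w.1 = d.1 := congrArg Prod.fst he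
        have e2 : g w.2 = d.2 := congrArg Prod.snd he
        have q1 := hf' w.1
        have q2 := hg' w.2
        rw [e1, add_assoc] at q1
        rw [e2, add_assoc] at q2
        rw [Finset.mem_product, Finset.mem_filter, Finset.mem_filter]
        exact ⟨⟨Finset.mem_univ _, q1⟩, ⟨Finset.mem_univ _, q2⟩⟩
      refine (Finset.card_le_card hsub).trans ?_
      rw [Finset.card_product]
      exact Nat.mul_le_mul (b1 _) (b2 _)
  have hcard : Fintype.card ((Fin m → ZMod 2) × (Fin m → ZMod 2)) = 4 ^ m := by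
    have : Fintype.card (Fin m → ZMod 2) = 2 ^ m := by simp [ZMod.card]
    rw [Fintype.card_prod, this, ← mul_pow]
    norm_num
  have hc2 : 4 ^ m * A.card ≤ B * B * ∑ d ∈ D1 ×ˢ D2, (Finset.univ.filter (fun p => good d p)).card := by
    calc 4 ^ m * A.card = ∑ _p : (Fin m → ZMod 2) × (Fin m → ZMod 2), A.card := by
          rw [Finset.sum_const, Finset.card_univ, smul_eq_mul, hcard]
      _ ≤ ∑ p, B * B * ((D1 ×ˢ D2).filter (fun d => good d p)).card := Finset.sum_le_sum fun p _ => hc1 p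
      _ = B * B * ∑ p, ((D1 ×ˢ D2).filter (fun d => good d p)).card := by rw [Finset.mul_sum]
      _ = B * B * ∑ d ∈ D1 ×ˢ D2, (Finset.univ.filter (fun p => good d p)).card := by
          congr 1
          exact Finset.sum_card_bipartiteAbove_eq_sum_card_bipartiteBelow (fun p d => good d p)
  by_contra hcon
  push Not at hcon
  obtain ⟨d01, hd01, -⟩ := h1 w0.1 0
  obtain ⟨d02, hd02, -⟩ := h2 w0.2 0
  have hlt : ∀ d ∈ D1 ×ˢ D2, D1.card * D2.card * B * B * (Finset.univ.filter (fun p => good d p)).card <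
      A.card * 4 ^ m := by
    intro d hd
    by_contra hle
    push Not at hle
    obtain ⟨z, hz, hz'⟩ := hcon d.1 d.2 _ hle
    rw [Finset.mem_filter] at hz
    obtain ⟨w, hw, g1, g2⟩ := hz.2
    exact absurd (hz' w hw g1) (not_lt.mpr g2)
  have hsum : ∑ d ∈ D1 ×ˢ D2, D1.card * D2.card * B * B * (Finset.univ.filter (fun p => good d p)).card <
      ∑ _d ∈ D1 ×ˢ D2, A.card * 4 ^ m :=
    Finset.sum_lt_sum_of_nonempty ⟨(d01, d02), Finset.mem_product.mpr ⟨hd01, hd02⟩⟩ hlt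
  rw [Finset.sum_const, smul_eq_mul, Finset.card_product, ← Finset.mul_sum] at hsum
  set t := ∑ d ∈ D1 ×ˢ D2, (Finset.univ.filter (fun p => good d p)).card with ht
  have h3 : D1.card * D2.card * (4 ^ m * A.card) ≤ D1.card * D2.card * (B * B * t) :=
    Nat.mul_le_mul_left _ hc2
  have h5 : D1.card * D2.card * (4 ^ m * A.card) = D1.card * D2.card * (A.card * 4 ^ m) := by ring
  have h6 : D1.card * D2.card * (B * B * t) = D1.card * D2.card * B * B * t := by ring
  omega

end Pool.Agent.helper57.MF
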