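import Pool.Agent.helper35.MF.Ring

set_option autoImplicit false

/-!
# MP_141f81, Section 8: spread maps into an unbounded coarse group

In an unbounded coarse group of exponent two there are, for all `m` and `L`, maps `s : F_2^m → K` which are additive
up to an error of norm `9 C` (uniform in `m`) and for which `N (s a) > L` for `a ≠ 0`.
-/

namespace Pool.Agent.helper57.MF

open Pool.Agent.helper35.MF Finset

variable {G : Type*} [AddCommGroup G] {N : G → ℕ} {K : Set G} {C R : ℕ} {β : ℕ → ℕ} {m : ℕ}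

/-- the exact sum of the `e i` with `a i ≠ 0` -/
def lin (e : Fin m → G) (a : Fin m → ZMod 2) : G := ∑ i, if a i = 0 then 0 else e i

section

variable (h : CGroup N K C R β)
include h

theorem lin_add (e : Fin m → G) (a b : Fin m → ZMod 2) : lin e (a + b) = lin e a + lin e b := by
  simp only [lin]
  rw [← Finset.sum_add_distrib]
  refine Finset.sum_congr rfl fun i _ => ?_
  have key : ∀ x y : ZMod 2, (if x + y = 0 then (0 : G) else e i) =
      (if x = 0 then 0 else e i) + (if y = 0 then 0 else e i) := by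
    have z2 : ∀ x : ZMod 2, x = 0 ∨ x = 1 := by decide
    intro x y
    have h1 : ((1 : ZMod 2) + 1) = 0 := by decide
    have h2 : ((1 : ZMod 2)) ≠ 0 := by decide
    rcases z2 x with rfl | rfl <;> rcases z2 y with rfl | rfl
    · simp
    · simp
    · simp
    · rw [if_pos h1, if_neg h2, h.two]
  exact key (a i) (b i)

theorem cgNsum (a b c : G) : N (a + c) ≤ N (a + b) + N (b + c) := by
  have h1 := h.Nadd (a + b) (b + c)
  have h2 : a + b + (b + c) = a + c := by rw [add_assoc, ← add_assoc b b c, h.two, zero_add]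
  rwa [h2] at h1

/-- a finite sum of elements of `K` is near `K` -/
theorem round_sum {ι : Type*} (s : Finset ι) (f : ι → G) (hf : ∀ i ∈ s, f i ∈ K) :
    ∃ k ∈ K, N ((∑ i ∈ s, f i) + k) ≤ C * s.card := by
  classical
  induction s using Finset.induction_on with
  | empty => exact ⟨0, h.zero, by simp [h.N0]⟩
  | insert i s hi ih =>
    obtain ⟨k, hk, hk'⟩ := ih (fun j hj => hf j (Finset.mem_insert_of_mem hj))
    obtain ⟨k', hk1, hk2⟩ := h.add _ (hf i (Finset.mem_insert_self _ _)) k hk
    refine ⟨k', hk1, ?_⟩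
    rw [Finset.sum_insert hi, Finset.card_insert_of_notMem hi]
    have e1 : f i + ∑ j ∈ s, f j + k' = (f i + k + k') + ((∑ j ∈ s, f j) + k) := by
      have := h.two k
      calc f i + ∑ j ∈ s, f j + k' = f i + ∑ j ∈ s, f j + k' + 0 := by rw [add_zero]
        _ = f i + ∑ j ∈ s, f j + k' + (k + k) := by rw [this]
        _ = (f i + k + k') + ((∑ j ∈ s, f j) + k) := by abel
    rw [e1]
    calc N ((f i + k + k') + ((∑ j ∈ s, f j) + k)) ≤ N (f i + k + k') + N ((∑ j ∈ s, f j) + k) := h.Nadd _ _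
      _ ≤ C + C * s.card := Nat.add_le_add hk2 hk'
      _ = C * (s.card + 1) := by ring

omit h in
/-- bound for the exact sums -/
def U (R : ℕ) : ℕ → ℕ → ℕ
  | 0, _ => 0
  | m + 1, L => 2 * U R m L + L + R + 1

theorem exists_norm {e0 : G} (he0 : e0 ∈ K) {L : ℕ} (hL : L < N e0) : ∃ a ∈ K, L < N a ∧ N a ≤ L + 1 + R := by
  obtain ⟨w, hw, h1, h2⟩ := h.exists_at (g := N) (s := R) h.N0 (fun a _ b _ hab => by
    have h1 := h.le_add b a
    rw [add_comm b a] at h1
    omega) he0 (t := L + 1) hL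
  exact ⟨w, hw, h1, h2⟩

theorem exists_sparse {e0 : G} (he0 : e0 ∈ K) (m L : ℕ) (hL : U R m L + L < N e0) :
    ∃ e : Fin m → G, (∀ i, e i ∈ K) ∧ (∀ a : Fin m → ZMod 2, N (lin e a) ≤ U R m L) ∧
      ∀ a : Fin m → ZMod 2, a ≠ 0 → L < N (lin e a) := by
  induction m with
  | zero =>
    refine ⟨fun _ => 0, fun i => i.elim0, fun a => ?_, fun a ha => absurd (Subsingleton.elim a 0) ha⟩
    simp [lin, U, h.N0]
  | succ m ih =>
    have hU : U R (m + 1) L = 2 * U R m L + L + R + 1 := rfl
    obtain ⟨e, he, heU, he'⟩ := ih (by omega)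
    obtain ⟨x, hx, hx', hx2⟩ := exists_norm h he0 (L := L + U R m L) (by omega)
    refine ⟨Fin.cons x e, fun i => ?_, fun a => ?_, fun a ha => ?_⟩
    · refine Fin.cases ?_ (fun j => ?_) i
      · simpa using hx
      · simpa using he j
    · have hs : lin (Fin.cons x e : Fin (m + 1) → G) a =
          (if a 0 = 0 then 0 else x) + lin e (fun i => a i.succ) := by
        simp [lin, Fin.sum_univ_succ]
      rw [hs]
      have h2 := heU (fun i => a i.succ)
      by_cases h0 : a 0 = 0
      · rw [if_pos h0, zero_add]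
        omega
      · rw [if_neg h0]
        have h1 := h.Nadd x (lin e (fun i => a i.succ))
        omega
    · have hs : lin (Fin.cons x e : Fin (m + 1) → G) a =
          (if a 0 = 0 then 0 else x) + lin e (fun i => a i.succ) := by
        simp [lin, Fin.sum_univ_succ]
      rw [hs]
      by_cases h0 : a 0 = 0
      · rw [if_pos h0, zero_add]
        refine he' _ (fun hz => ha ?_)
        funext i
        refine Fin.cases h0 (fun j => congrFun hz j) i
      · rw [if_neg h0]
        have h1 := h.le_add x (lin e (fun i => a i.succ))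
        have h2 := heU (fun i => a i.succ)
        omega

/-- first version, with an error which depends on `m` -/
theorem exists_rough {e0 : G} (he0 : e0 ∈ K) (m L : ℕ) (hL : U R m (L + C * m) + (L + C * m) < N e0) :
    ∃ s : (Fin m → ZMod 2) → G, (∀ a, s a ∈ K) ∧ (∀ a b, N (s a + s b + s (a + b)) ≤ 3 * (C * m)) ∧
      (∀ a, N (s a) ≤ U R m (L + C * m) + C * m) ∧ ∀ a, a ≠ 0 → L < N (s a) := by
  classical
  obtain ⟨e, he, heU, he'⟩ := exists_sparse h he0 m (L + C * m) hL
  have hr : ∀ a : Fin m → ZMod 2, ∃ k ∈ K, N (lin e a + k) ≤ C * m := by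
    intro a
    obtain ⟨k, hk, hk'⟩ := round_sum h (Finset.univ : Finset (Fin m))
      (fun i => if a i = 0 then 0 else e i) (fun i _ => by
        show (if a i = 0 then (0 : G) else e i) ∈ K
        split_ifs
        · exact h.zero
        · exact he i)
    refine ⟨k, hk, ?_⟩
    simpa [lin] using hk'
  choose s hs hs' using hr
  refine ⟨s, hs, fun a b => ?_, fun a => ?_, fun a ha => ?_⟩
  · have e1 : s a + s b + s (a + b) = (lin e a + s a) + (lin e b + s b) + (lin e (a + b) + s (a + b)) := by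
      rw [lin_add h]
      have h2 := h.two (lin e a)
      have h3 := h.two (lin e b)
      calc s a + s b + s (a + b) = 0 + 0 + (s a + s b + s (a + b)) := by rw [zero_add, zero_add]
        _ = (lin e a + lin e a) + (lin e b + lin e b) + (s a + s b + s (a + b)) := by rw [h2, h3]
        _ = _ := by abel
    rw [e1]
    have h1 := h.Nadd ((lin e a + s a) + (lin e b + s b)) (lin e (a + b) + s (a + b))
    have h2 := h.Nadd (lin e a + s a) (lin e b + s b)
    have h3 := hs' a
    have h4 := hs' b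
    have h5 := hs' (a + b)
    omega
  · have h1 := h.le_add (s a) (lin e a)
    rw [add_comm (s a)] at h1
    have h2 := hs' a
    have h3 := heU a
    omega
  · have h1 := h.le_add (lin e a) (s a)
    have h2 := hs' a
    have h3 := he' a ha
    omega

omit h in
/-- the lower bounds of the successive rough maps -/
def Ls (C R m L0 : ℕ) : ℕ → ℕ
  | 0 => L0
  | j + 1 => Ls C R m L0 j + L0 + C + (U R m (Ls C R m L0 j + C * m) + C * m)

omit h in
theorem Ls_mono (C R m L0 : ℕ) : Monotone (Ls C R m L0) :=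
  monotone_nat_of_le_succ fun j => by
    have : Ls C R m L0 (j + 1) = Ls C R m L0 j + L0 + C + (U R m (Ls C R m L0 j + C * m) + C * m) := rfl
    omega

end

universe u

/-- **Spread maps, effective form.** -/
theorem spread (C R : ℕ) (β : ℕ → ℕ) (m L0 : ℕ) : ∃ L1 : ℕ, ∀ {G : Type u} [AddCommGroup G] {N : G → ℕ}
    {K : Set G}, CGroup N K C R β → (∃ e ∈ K, L1 < N e) →
      ∃ s : (Fin m → ZMod 2) → G, (∀ a, s a ∈ K) ∧ (∀ a b, N (s a + s b + s (a + b)) ≤ 9 * C) ∧
        (∀ a, N (s a) ≤ 2 * L1 + C) ∧ ∀ a, a ≠ 0 → L0 < N (s a) := by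
  classical
  set Mp := (β (3 * (C * m) + 2 * C)) ^ Fintype.card ((Fin m → ZMod 2) × (Fin m → ZMod 2)) with hMp
  set L1 := (Finset.range (Mp + 1)).sup
    (fun j => U R m (Ls C R m L0 j + C * m) + (Ls C R m L0 j + C * m)) with hL1def
  refine ⟨L1, ?_⟩
  intro G _ N K h ⟨e0, he0, hbig⟩
  have hLs : ∀ j : Fin (Mp + 1), U R m (Ls C R m L0 j + C * m) + (Ls C R m L0 j + C * m) ≤ L1 := by
    intro j
    rw [hL1def]
    exact Finset.le_sup (f := fun j : ℕ => U R m (Ls C R m L0 j + C * m) + (Ls C R m L0 j + C * m))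
      (Finset.mem_range.mpr j.2)
  have hL : ∀ j : Fin (Mp + 1), U R m (Ls C R m L0 j + C * m) + (Ls C R m L0 j + C * m) < N e0 :=
    fun j => lt_of_le_of_lt (hLs j) hbig
  choose s hsK hsE hsU hsL using fun j : Fin (Mp + 1) => exists_rough h he0 m (Ls C R m L0 j) (hL j)
  obtain ⟨S, hScard, hSK, hS⟩ := h.cover (3 * (C * m) + 2 * C)
  -- the error, moved to `K`
  have hw : ∀ L a b, ∃ w ∈ K, N (s L a + s L b + s L (a + b) + w) ≤ 2 * C := by
    intro L a b
    obtain ⟨t, ht, ht'⟩ := h.add _ (hsK L a) _ (hsK L b)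
    obtain ⟨w, hw, hw'⟩ := h.add _ ht _ (hsK L (a + b))
    refine ⟨w, hw, ?_⟩
    have e1 : s L a + s L b + s L (a + b) + w = (s L a + s L b + t) + (t + s L (a + b) + w) := by
      have h2 := h.two t
      calc s L a + s L b + s L (a + b) + w = s L a + s L b + s L (a + b) + w + 0 := by rw [add_zero]
        _ = s L a + s L b + s L (a + b) + w + (t + t) := by rw [h2]
        _ = _ := by abel
    rw [e1]
    have h1 := h.Nadd (s L a + s L b + t) (t + s L (a + b) + w)
    omega
  choose w hwK hwE using hw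
  have hwN : ∀ L a b, N (w L a b) ≤ 3 * (C * m) + 2 * C := by
    intro L a b
    have h1 := h.le_add (w L a b) (s L a + s L b + s L (a + b))
    rw [add_comm (w L a b)] at h1
    have h2 := hwE L a b
    have h3 := hsE L a b
    omega
  have hp : ∀ L a b, ∃ p : S, N (w L a b + p) ≤ C := by
    intro L a b
    obtain ⟨p, hp, hp'⟩ := hS _ (hwK L a b) (hwN L a b)
    exact ⟨⟨p, hp⟩, hp'⟩
  choose p hpC using hp
  have hcard : Fintype.card ((Fin m → ZMod 2) × (Fin m → ZMod 2) → S) < Fintype.card (Fin (Mp + 1)) := by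
    rw [Fintype.card_fun, Fintype.card_coe, Fintype.card_fin]
    exact Nat.lt_succ_of_le (Nat.pow_le_pow_left hScard _)
  obtain ⟨L1', L2', hne, hpat⟩ := Fintype.exists_ne_map_eq_of_card_lt
    (fun L : Fin (Mp + 1) => (fun q : (Fin m → ZMod 2) × (Fin m → ZMod 2) => p L q.1 q.2)) hcard
  -- order the two indices
  obtain ⟨i1, i2, hlt, hpp⟩ : ∃ i1 i2 : Fin (Mp + 1), i1 < i2 ∧ ∀ a b, p i1 a b = p i2 a b := by
    rcases lt_or_gt_of_ne hne with hlt | hlt
    · exact ⟨L1', L2', hlt, fun a b => congrFun hpat (a, b)⟩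
    · exact ⟨L2', L1', hlt, fun a b => (congrFun hpat (a, b)).symm⟩
  have hz : ∀ a, ∃ z ∈ K, N (s i1 a + s i2 a + z) ≤ C := fun a => h.add _ (hsK i1 a) _ (hsK i2 a)
  choose z hzK hzC using hz
  refine ⟨z, hzK, fun a b => ?_, fun a => ?_, fun a ha => ?_⟩
  · set E1 := s i1 a + s i1 b + s i1 (a + b) with hE1
    set E2 := s i2 a + s i2 b + s i2 (a + b) with hE2
    have h1 : N (E1 + w i1 a b) ≤ 2 * C := hwE i1 a b
    have h2 : N (E2 + w i2 a b) ≤ 2 * C := hwE i2 a b
    have h3 : N (w i1 a b + p i1 a b) ≤ C := hpC i1 a b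
    have h4 : N (w i2 a b + p i1 a b) ≤ C := by rw [hpp a b]; exact hpC i2 a b
    have h5 : N (E1 + E2) ≤ 6 * C := by
      have q1 := cgNsum h E1 (w i1 a b) E2
      have q2 := cgNsum h (w i1 a b) (p i1 a b : G) E2
      have q3 := cgNsum h (p i1 a b : G) (w i2 a b) E2
      rw [add_comm (p i1 a b : G) (w i2 a b), add_comm (w i2 a b) E2] at q3
      omega
    have e1 : z a + z b + z (a + b) = (s i1 a + s i2 a + z a) + (s i1 b + s i2 b + z b) +
        (s i1 (a + b) + s i2 (a + b) + z (a + b)) + (E1 + E2) := by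
      have r : ∀ x : G, x + x = 0 := h.two
      have : (s i1 a + s i2 a + z a) + (s i1 b + s i2 b + z b) +
        (s i1 (a + b) + s i2 (a + b) + z (a + b)) + (E1 + E2) =
        (s i1 a + s i1 a) + (s i2 a + s i2 a) + (s i1 b + s i1 b) + (s i2 b + s i2 b) +
        (s i1 (a + b) + s i1 (a + b)) + (s i2 (a + b) + s i2 (a + b)) + (z a + z b + z (a + b)) := by
        rw [hE1, hE2]; abel
      rw [this]
      simp only [r, zero_add]
    rw [e1]
    have g1 := h.Nadd ((s i1 a + s i2 a + z a) + (s i1 b + s i2 b + z b) +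
        (s i1 (a + b) + s i2 (a + b) + z (a + b))) (E1 + E2)
    have g2 := h.Nadd ((s i1 a + s i2 a + z a) + (s i1 b + s i2 b + z b))
        (s i1 (a + b) + s i2 (a + b) + z (a + b))
    have g3 := h.Nadd (s i1 a + s i2 a + z a) (s i1 b + s i2 b + z b)
    have g4 := hzC a
    have g5 := hzC b
    have g6 := hzC (a + b)
    omega
  · have h1 := hsU i1 a
    have h2 := hsU i2 a
    have h3 := hLs i1
    have h4 := hLs i2
    have h5 := h.le_add (z a) (s i1 a + s i2 a)
    rw [add_comm (z a)] at h5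
    have h6 := h.Nadd (s i1 a) (s i2 a)
    have h7 := hzC a
    omega
  · have h1 := hsL i2 a ha
    have h2 := hsU i1 a
    have h3 := h.le_add (s i2 a) (s i1 a + z a)
    have e2 : s i2 a + (s i1 a + z a) = s i1 a + s i2 a + z a := by abel
    rw [e2] at h3
    have h4 := h.Nadd (s i1 a) (z a)
    have h5 := hzC a
    have h6 : Ls C R m L0 ((i1 : ℕ) + 1) ≤ Ls C R m L0 (i2 : ℕ) := Ls_mono C R m L0 (by
      have := Fin.lt_def.mp hlt
      omega)
    have h7 : Ls C R m L0 ((i1 : ℕ) + 1) =
      Ls C R m L0 i1 + L0 + C + (U R m (Ls C R m L0 i1 + C * m) + C * m) := rfl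
    omega

end Pool.Agent.helper57.MF
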