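import Pool.Agent.MF.Frame2

set_option autoImplicit false

/-!
# MP_141f81: assembly of `EMOut` from a coarse group whose component of zero is bounded

`U` is the image of `D` in the quotient of the group of words by the group generated by the lines `T`.
-/

namespace Pool.Agent.helper57.MF

open Pool.Agent.MF Finset
open Pool.Agent.helper35.MF (Ball ball_add)

section matroid

variable {N : Type} [AddCommGroup N] [Fintype N] [DecidableEq N] (M : Mat N)

theorem rk_union_of_incl (S A : Finset N) (hA : ∀ w ∈ A, M.InCl S w) : M.rk (S ∪ A) = M.rk S := by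
  induction A using Finset.induction_on with
  | empty => rw [Finset.union_empty]
  | insert w A _ ih =>
    have ih' := ih (fun x hx => hA x (Finset.mem_insert_of_mem hx))
    have h1 := hA w (Finset.mem_insert_self _ _)
    have h2 := M.rk_submod (S ∪ A) (insert w S)
    have e1 : S ∪ A ∪ insert w S = S ∪ insert w A := by
      ext x
      simp only [Finset.mem_union, Finset.mem_insert]
      tauto
    have h3 : M.rk S ≤ M.rk ((S ∪ A) ∩ insert w S) :=
      M.rk_mono (Finset.subset_inter Finset.subset_union_left (Finset.subset_insert _ _))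
    rw [e1] at h2
    have h4 : M.rk (insert w S) = M.rk S := h1
    have h5 : M.rk S ≤ M.rk (S ∪ insert w A) := M.rk_mono Finset.subset_union_left
    omega

theorem exists_indep (hr : 2 ≤ M.r) {u : N} (hu : u ≠ 0) : ∃ w, M.rk {u, w} = 2 := by
  by_contra hcon
  push Not at hcon
  have h1 : ∀ w ∈ (Finset.univ : Finset N), M.InCl {u} w := by
    intro w _
    have h2 : M.rk (insert w {u}) = M.rk {u, w} := by rw [Finset.pair_comm]
    have h3 := M.rk_insert_le w {u}
    have h4 := M.rk_single u hu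
    have h5 : M.rk {u} ≤ M.rk (insert w {u}) := M.rk_mono (Finset.subset_insert _ _)
    have h6 := hcon w
    show M.rk (insert w {u}) = M.rk {u}
    omega
  have h2 := rk_union_of_incl M {u} Finset.univ h1
  have e0 : ({u} : Finset N) ∪ Finset.univ = Finset.univ := by
    ext x
    simp
  rw [e0] at h2
  have h3 := M.rk_single u hu
  have : M.r = M.rk Finset.univ := rfl
  omega

theorem rk_pair_le {a b c : N} (hb : b ≠ 0) (h1 : M.rk {a, b} ≤ 1) (h2 : M.rk {b, c} ≤ 1) :
    M.rk {a, b, c} ≤ 1 := by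
  have h3 := M.rk_submod {a, b} {b, c}
  have e1 : ({a, b} : Finset N) ∪ {b, c} = {a, b, c} := by
    ext x
    simp only [Finset.mem_union, Finset.mem_insert, Finset.mem_singleton]
    tauto
  rw [e1] at h3
  have h4 : M.rk {b} ≤ M.rk (({a, b} : Finset N) ∩ {b, c}) := M.rk_mono (by
    intro x hx
    simp only [Finset.mem_singleton] at hx
    simp [hx])
  have h5 := M.rk_single b hb
  omega

/-- three independent pairs for two parallel roles -/
theorem parallel_third (hr : 2 ≤ M.r) {u v : N} (hu : u ≠ 0) (hv : v ≠ 0) (huv : u ≠ v) (hp : ¬ M.Ind ∅ u v) :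
    ∃ w, M.Ind ∅ u w ∧ M.Ind ∅ v w ∧ M.Ind ∅ (u + w) (v + w) := by
  have hInd : ∀ a b : N, M.Ind ∅ a b ↔ M.rk {a, b} = 2 := by
    intro a b
    unfold Mat.Ind
    rw [M.rk_empty]
    constructor
    · intro h
      simpa using h
    · intro h
      simpa using h
  have hle2 : ∀ a b : N, M.rk {a, b} ≤ 2 := by
    intro a b
    have h1 := M.rk_insert_le a {b}
    have h2 := M.rk_insert_le b ∅
    rw [M.rk_empty] at h2
    have h3 : M.rk ({b} : Finset N) ≤ 1 := by simpa using h2
    have : M.rk (insert a {b}) = M.rk {a, b} := rfl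
    omega
  have hsum : u + v ≠ 0 := by
    intro h
    apply huv
    calc u = u + (v + v) := by rw [M.two v, add_zero]
      _ = (u + v) + v := by rw [add_assoc]
      _ = v := by rw [h, zero_add]
  have hpar : M.rk {u, v} ≤ 1 := by
    have h1 := hle2 u v
    have h2 : M.rk {u, v} ≠ 2 := fun h => hp ((hInd u v).mpr h)
    omega
  obtain ⟨w, hw⟩ := exists_indep M hr hu
  refine ⟨w, (hInd _ _).mpr hw, ?_, ?_⟩
  · rw [hInd]
    by_contra hne
    have h1 : M.rk {v, w} ≤ 1 := by
      have := hle2 v w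
      omega
    have h2 := rk_pair_le M hv hpar h1
    have h3 : M.rk {u, w} ≤ M.rk {u, v, w} := M.rk_mono (by
      intro x hx
      simp only [Finset.mem_insert, Finset.mem_singleton] at hx ⊢
      tauto)
    omega
  · rw [hInd]
    by_contra hne
    have h1 : M.rk {u + w, v + w} ≤ 1 := by
      have := hle2 (u + w) (v + w)
      omega
    have e1 : (u + w) + (v + w) = u + v := by
      calc (u + w) + (v + w) = (u + v) + (w + w) := by abel
        _ = u + v := by rw [M.two, add_zero]
    have h2 := M.rk_add (u + w) (v + w)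
    rw [e1] at h2
    have h3 : M.rk {u + v, u + w} ≤ 1 := by
      have : M.rk {u + v, u + w} ≤ M.rk {u + w, v + w, u + v} := M.rk_mono (by
        intro x hx
        simp only [Finset.mem_insert, Finset.mem_singleton] at hx ⊢
        tauto)
      omega
    have h4 : M.rk {u, u + v} ≤ 1 := by
      have h5 := M.rk_add u v
      have : M.rk {u, u + v} ≤ M.rk {u, v, u + v} := M.rk_mono (by
        intro x hx
        simp only [Finset.mem_insert, Finset.mem_singleton] at hx ⊢
        tauto)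
      omega
    have h5 := rk_pair_le M hsum h4 h3
    have h6 : M.rk {u, u + w} ≤ 1 := by
      have : M.rk {u, u + w} ≤ M.rk {u, u + v, u + w} := M.rk_mono (by
        intro x hx
        simp only [Finset.mem_insert, Finset.mem_singleton] at hx ⊢
        tauto)
      omega
    have h7 := M.rk_add u (u + w)
    have e2 : u + (u + w) = w := by rw [← add_assoc, M.two, zero_add]
    rw [e2] at h7
    have h8 : M.rk {u, w} ≤ M.rk {u, u + w, w} := M.rk_mono (by
      intro x hx
      simp only [Finset.mem_insert, Finset.mem_singleton] at hx ⊢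
      tauto)
    omega

end matroid

/-- **Assembly**, with the statement that `U` is universal. -/
theorem em_asm_inj {N : Type} [AddCommGroup N] [Fintype N] [DecidableEq N] (M : Mat N) (hr : 2 ≤ M.r) {n : ℕ}
    {R S : Finset (N → Fin n)} (hex : Exact M R) {κj : ℝ} (hj : JCOut M Finset.univ κj R S)
    {G' : Type} [AddCommGroup G'] (two : ∀ g : G', g + g = 0) (val : N → Fin n → G') (T : Set G')
    (hline : ∀ ρ ∈ R, ∀ u v : N, M.Ind ∅ u v →
      val u (ρ u) + val v (ρ v) + val (u + v) (ρ (u + v)) ∈ AddSubgroup.closure T)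
    (D : Set G') (h0 : (0 : G') ∈ D) (hlt : ∀ ρ ∈ R, ∀ v : N, v ≠ 0 → val v (ρ v) ∈ D) {κ L : ℕ}
    (hadd : ∀ u ∈ D, ∀ v ∈ D, ∃ w ∈ D, u + v + w ∈ Ball T κ)
    (hK : ∀ e ∈ D, e ∈ AddSubgroup.closure T → e ∈ Ball T L) {C : ℕ}
    (hcons : ∀ v : N, v ≠ 0 → ∀ x : Fin n, (∃ ρ ∈ R, ρ v = x) → ∀ A : Finset (Fin n),
      (∀ y ∈ A, (∃ ρ ∈ R, ρ v = y) ∧ val v x + val v y ∈ Ball T (L + κ)) → A.card ≤ C) {Kd : ℕ}
    (hcard : ∀ W : Finset G', (∀ w ∈ W, w ∈ D) →
      (∀ w ∈ W, ∀ w' ∈ W, w ≠ w' → w + w' ∉ AddSubgroup.closure T) → W.card ≤ Kd * n)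
    {Tt : ℕ} (t1 : Kd ≤ Tt) (t2 : C ≤ Tt) (t3 : 1 ≤ κj * Tt) :
    ∃ (U : Type) (_ : AddCommGroup U) (_ : Fintype U) (_ : DecidableEq U) (π : N → Fin n → U),
      EMOut M n Tt R S U π ∧
      ∀ l : List (N × Fin n), (∀ p ∈ l, p.1 ≠ 0 ∧ ∃ ρ ∈ R, ρ p.1 = p.2) →
        (l.map (fun p => π p.1 p.2)).sum = 0 →
        (l.map (fun p => val p.1 p.2)).sum ∈ Ball T (L + l.length * κ) := by
  classical
  set cl := AddSubgroup.closure T with hcl
  have hball : ∀ r : ℕ, ∀ g : G', g ∈ Ball T r → g ∈ cl := by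
    rintro r g ⟨l, -, hl, rfl⟩
    exact AddSubgroup.list_sum_mem cl (fun x hx => AddSubgroup.subset_closure (hl x hx))
  have hneg : ∀ g : G', -g = g := fun g => by
    rw [neg_eq_iff_add_eq_zero]
    exact two g
  set q := QuotientAddGroup.mk' cl with hq
  have hq0 : ∀ g : G', q g = 0 ↔ g ∈ cl := fun g => QuotientAddGroup.eq_zero_iff g
  have qtwo : ∀ z : G' ⧸ cl, z + z = 0 := by
    intro z
    obtain ⟨g, rfl⟩ := QuotientAddGroup.mk'_surjective cl z
    rw [← map_add, two, map_zero]
  have hqe : ∀ g g' : G', q g = q g' ↔ g + g' ∈ cl := by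
    intro g g'
    rw [← hq0, map_add]
    constructor
    · intro h; rw [h]; exact qtwo _
    · intro h
      calc q g = q g + (q g' + q g') := by rw [qtwo, add_zero]
        _ = (q g + q g') + q g' := by rw [add_assoc]
        _ = q g' := by rw [h, zero_add]
  -- the subgroup
  set US : AddSubgroup (G' ⧸ cl) :=
    { carrier := q '' D
      zero_mem' := ⟨0, h0, map_zero q⟩
      add_mem' := by
        rintro _ _ ⟨u, hu, rfl⟩ ⟨v, hv, rfl⟩
        obtain ⟨w, hw, hw'⟩ := hadd u hu v hv
        refine ⟨w, hw, ?_⟩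
        rw [← map_add, hqe]
        have := hball _ _ hw'
        rwa [add_comm] at this
      neg_mem' := by
        rintro _ ⟨u, hu, rfl⟩
        exact ⟨u, hu, by rw [← map_neg, hneg]⟩ } with hUS
  have hmemUS : ∀ z : G' ⧸ cl, z ∈ US ↔ ∃ u ∈ D, q u = z := fun z => Iff.rfl
  -- finiteness
  have hfinset : ∀ Z : Finset (G' ⧸ cl), (∀ z ∈ Z, z ∈ US) → Z.card ≤ Kd * n := by
    intro Z hZ
    choose! f hfD hfq using fun z (hz : z ∈ Z) => (hmemUS z).mp (hZ z hz)
    have hinj : Set.InjOn f Z := by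
      intro z hz z' hz' he
      rw [← hfq z hz, ← hfq z' hz', he]
    have h1 := hcard (Z.image f) (by
      intro w hw
      obtain ⟨z, hz, rfl⟩ := Finset.mem_image.mp hw
      exact hfD z hz) (by
      intro w hw w' hw' hne hin
      obtain ⟨z, hz, rfl⟩ := Finset.mem_image.mp hw
      obtain ⟨z', hz', rfl⟩ := Finset.mem_image.mp hw'
      apply hne
      have h2 := (hqe (f z) (f z')).mpr hin
      rw [hfq z hz, hfq z' hz'] at h2
      rw [h2])
    rwa [Finset.card_image_of_injOn hinj] at h1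
  have hfin : (US : Set (G' ⧸ cl)).Finite := by
    by_contra hinf
    obtain ⟨Z, hZ, hZc⟩ := Set.Infinite.exists_subset_card_eq hinf (Kd * n + 1)
    have := hfinset Z (fun z hz => hZ hz)
    omega
  have : Finite US := hfin
  let _ : Fintype US := Fintype.ofFinite US
  have hcardU : Fintype.card US ≤ Kd * n := by
    have h1 := hfinset (hfin.toFinset) (fun z hz => (Set.Finite.mem_toFinset hfin).mp hz)
    have h2 : hfin.toFinset.card = Fintype.card US := by
      rw [← Nat.card_eq_fintype_card, ← Set.ncard_eq_toFinset_card _ hfin]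
      rfl
    rwa [h2] at h1
  have Utwo : ∀ u : US, u + u = 0 := fun u => Subtype.ext (qtwo _)
  set π : N → Fin n → US := fun v x =>
    if h : v ≠ 0 ∧ val v x ∈ D then ⟨q (val v x), val v x, h.2, rfl⟩ else 0 with hπ
  have hπv : ∀ ρ ∈ R, ∀ v : N, v ≠ 0 → ((π v (ρ v) : US) : G' ⧸ cl) = q (val v (ρ v)) := by
    intro ρ hρ v hv
    have h : v ≠ 0 ∧ val v (ρ v) ∈ D := ⟨hv, hlt ρ hρ v hv⟩
    simp only [hπ, dif_pos h]
  have hπ0 : ∀ x, π 0 x = 0 := by
    intro x
    have h : ¬ ((0 : N) ≠ 0 ∧ val 0 x ∈ D) := fun h => h.1 rfl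
    simp only [hπ, dif_neg h]
  -- all lines
  have hall : ∀ ρ ∈ R, ∀ u v : N, u ≠ 0 → v ≠ 0 → u ≠ v →
      val u (ρ u) + val v (ρ v) + val (u + v) (ρ (u + v)) ∈ cl := by
    intro ρ hρ u v hu hv huv
    by_cases hi : M.Ind ∅ u v
    · exact hline ρ hρ u v hi
    · obtain ⟨w, w1, w2, w3⟩ := parallel_third M hr hu hv huv hi
      have l1 := hline ρ hρ u w w1
      have l2 := hline ρ hρ v w w2
      have l3 := hline ρ hρ (u + w) (v + w) w3
      have e1 : (u + w) + (v + w) = u + v := by
        calc (u + w) + (v + w) = (u + v) + (w + w) := by abel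
          _ = u + v := by rw [M.two, add_zero]
      rw [e1] at l3
      have l4 := cl.add_mem (cl.add_mem l1 l2) l3
      have e2 : val u (ρ u) + val w (ρ w) + val (u + w) (ρ (u + w)) +
          (val v (ρ v) + val w (ρ w) + val (v + w) (ρ (v + w))) +
          (val (u + w) (ρ (u + w)) + val (v + w) (ρ (v + w)) + val (u + v) (ρ (u + v))) =
          val u (ρ u) + val v (ρ v) + val (u + v) (ρ (u + v)) := by
        have : val u (ρ u) + val w (ρ w) + val (u + w) (ρ (u + w)) +
          (val v (ρ v) + val w (ρ w) + val (v + w) (ρ (v + w))) +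
          (val (u + w) (ρ (u + w)) + val (v + w) (ρ (v + w)) + val (u + v) (ρ (u + v))) =
          (val w (ρ w) + val w (ρ w)) + (val (u + w) (ρ (u + w)) + val (u + w) (ρ (u + w))) +
          (val (v + w) (ρ (v + w)) + val (v + w) (ρ (v + w))) +
          (val u (ρ u) + val v (ρ v) + val (u + v) (ρ (u + v))) := by abel
        rw [this]
        simp only [two, zero_add]
      rw [e2] at l4
      exact l4
  refine ⟨US, inferInstance, inferInstance, inferInstance, π, ?_, ?_⟩
  rotate_left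
  · -- `U` is universal
    intro l hl hsum
    have h1 : ∀ l : List (N × Fin n), (∀ p ∈ l, p.1 ≠ 0 ∧ ∃ ρ ∈ R, ρ p.1 = p.2) →
        (((l.map (fun p => π p.1 p.2)).sum : US) : G' ⧸ cl) = q ((l.map (fun p => val p.1 p.2)).sum) ∧
        ∃ d ∈ D, d + (l.map (fun p => val p.1 p.2)).sum ∈ Ball T (l.length * κ) := by
      intro l
      induction l with
      | nil =>
        intro _
        refine ⟨by simp, 0, h0, ⟨[], by simp, by simp, by simp⟩⟩
      | cons p l ih =>
        intro hl
        obtain ⟨i1, d, hd, i2⟩ := ih (fun p hp => hl p (List.mem_cons_of_mem _ hp))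
        obtain ⟨hp, ρ, hρ, hρp⟩ := hl p List.mem_cons_self
        have a1 := hπv ρ hρ p.1 hp
        have a2 := hlt ρ hρ p.1 hp
        rw [hρp] at a1 a2
        refine ⟨?_, ?_⟩
        · rw [List.map_cons, List.sum_cons, List.map_cons, List.sum_cons, AddSubgroup.coe_add, a1, i1, map_add]
        · obtain ⟨w, hw, hw'⟩ := hadd d hd _ a2
          refine ⟨w, hw, ?_⟩
          have h2 := ball_add hw' i2
          rw [List.map_cons, List.sum_cons, List.length_cons, Nat.add_mul, Nat.one_mul, Nat.add_comm (l.length * κ)]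
          have e : d + val p.1 p.2 + w + (d + (l.map (fun p => val p.1 p.2)).sum) =
              w + (val p.1 p.2 + (l.map (fun p => val p.1 p.2)).sum) := by
            calc d + val p.1 p.2 + w + (d + (l.map (fun p => val p.1 p.2)).sum) =
                (d + d) + (w + (val p.1 p.2 + (l.map (fun p => val p.1 p.2)).sum)) := by abel
              _ = w + (val p.1 p.2 + (l.map (fun p => val p.1 p.2)).sum) := by rw [two, zero_add]
          rwa [e] at h2
    obtain ⟨i1, d, hd, i2⟩ := h1 l hl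
    rw [hsum] at i1
    have h3 : (l.map (fun p => val p.1 p.2)).sum ∈ cl := (hq0 _).mp i1.symm
    have h4 : d ∈ cl := by
      have h5 := cl.sub_mem (hball _ _ i2) h3
      rwa [add_sub_cancel_right] at h5
    have h6 := ball_add (hK d hd h4) i2
    have e : d + (d + (l.map (fun p => val p.1 p.2)).sum) = (l.map (fun p => val p.1 p.2)).sum := by
      rw [← add_assoc, two, zero_add]
    rwa [e] at h6
  refine ⟨Utwo, hcardU.trans (Nat.mul_le_mul_right _ t1), ?_, hπ0, ?_, hex, ⟨κj, t3, hj⟩⟩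
  · -- fibres
    intro v w hv
    rcases (Finset.univ.filter (fun y : Fin n => (∃ ρ ∈ R, ρ v = y) ∧ π v y = w)).eq_empty_or_nonempty with
      he | ⟨x, hx⟩
    · rw [he]
      simp
    · rw [Finset.mem_filter] at hx
      obtain ⟨-, ⟨ρ0, hρ0, hx0⟩, hxw⟩ := hx
      refine (hcons v hv x ⟨ρ0, hρ0, hx0⟩ _ (fun y hy => ?_)).trans t2
      rw [Finset.mem_filter] at hy
      obtain ⟨-, ⟨ρ, hρ, hy0⟩, hyw⟩ := hy
      refine ⟨⟨ρ, hρ, hy0⟩, ?_⟩
      have hDx := hlt ρ0 hρ0 v hv
      have hDy := hlt ρ hρ v hv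
      have a1 := hπv ρ0 hρ0 v hv
      have a2 := hπv ρ hρ v hv
      rw [hx0] at hDx a1
      rw [hy0] at hDy a2
      have h1 : q (val v x) = q (val v y) := by
        rw [← a1, ← a2, hxw, hyw]
      have h2 := (hqe _ _).mp h1
      obtain ⟨e, he, he'⟩ := hadd _ hDx _ hDy
      have h3 : e ∈ cl := by
        have h4 := cl.add_mem h2 (hball _ _ he')
        have e1 : val v x + val v y + (val v x + val v y + e) = e := by
          rw [← add_assoc, two, zero_add]
        rwa [e1] at h4
      have h5 := ball_add (hK e he h3) he'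
      have e2 : e + (val v x + val v y + e) = val v x + val v y := by
        have : e + (val v x + val v y + e) = (e + e) + (val v x + val v y) := by abel
        rw [this, two, zero_add]
      rwa [e2] at h5
  · -- additivity
    intro ρ hρ u v
    by_cases hu : u = 0
    · subst hu
      rw [zero_add, hπ0, zero_add]
    by_cases hv : v = 0
    · subst hv
      rw [add_zero, hπ0, add_zero]
    by_cases huv : u = v
    · subst huv
      rw [M.two, hπ0, Utwo]
    have hs : u + v ≠ 0 := by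
      intro h
      apply huv
      calc u = u + (v + v) := by rw [M.two v, add_zero]
        _ = (u + v) + v := by rw [add_assoc]
        _ = v := by rw [h, zero_add]
    apply Subtype.ext
    rw [AddSubgroup.coe_add, hπv ρ hρ _ hs, hπv ρ hρ _ hu, hπv ρ hρ _ hv, ← map_add, hqe]
    have := hall ρ hρ u v hu hv huv
    have e1 : val (u + v) (ρ (u + v)) + (val u (ρ u) + val v (ρ v)) =
        val u (ρ u) + val v (ρ v) + val (u + v) (ρ (u + v)) := add_comm _ _
    rwa [e1]

/-- **Assembly.** -/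
theorem em_asm {N : Type} [AddCommGroup N] [Fintype N] [DecidableEq N] (M : Mat N) (hr : 2 ≤ M.r) {n : ℕ}
    {R S : Finset (N → Fin n)} (hex : Exact M R) {κj : ℝ} (hj : JCOut M Finset.univ κj R S)
    {G' : Type} [AddCommGroup G'] (two : ∀ g : G', g + g = 0) (val : N → Fin n → G') (T : Set G')
    (hline : ∀ ρ ∈ R, ∀ u v : N, M.Ind ∅ u v →
      val u (ρ u) + val v (ρ v) + val (u + v) (ρ (u + v)) ∈ AddSubgroup.closure T)
    (D : Set G') (h0 : (0 : G') ∈ D) (hlt : ∀ ρ ∈ R, ∀ v : N, v ≠ 0 → val v (ρ v) ∈ D) {κ L : ℕ}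
    (hadd : ∀ u ∈ D, ∀ v ∈ D, ∃ w ∈ D, u + v + w ∈ Ball T κ)
    (hK : ∀ e ∈ D, e ∈ AddSubgroup.closure T → e ∈ Ball T L) {C : ℕ}
    (hcons : ∀ v : N, v ≠ 0 → ∀ x : Fin n, (∃ ρ ∈ R, ρ v = x) → ∀ A : Finset (Fin n),
      (∀ y ∈ A, (∃ ρ ∈ R, ρ v = y) ∧ val v x + val v y ∈ Ball T (L + κ)) → A.card ≤ C) {Kd : ℕ}
    (hcard : ∀ W : Finset G', (∀ w ∈ W, w ∈ D) →
      (∀ w ∈ W, ∀ w' ∈ W, w ≠ w' → w + w' ∉ AddSubgroup.closure T) → W.card ≤ Kd * n)
    {Tt : ℕ} (t1 : Kd ≤ Tt) (t2 : C ≤ Tt) (t3 : 1 ≤ κj * Tt) :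
    ∃ (U : Type) (_ : AddCommGroup U) (_ : Fintype U) (_ : DecidableEq U) (π : N → Fin n → U),
      EMOut M n Tt R S U π := by
  obtain ⟨U, i1, i2, i3, π, h, -⟩ := em_asm_inj M hr hex hj two val T hline D h0 hlt hadd hK hcons hcard t1 t2 t3
  exact ⟨U, i1, i2, i3, π, h⟩

end Pool.Agent.helper57.MF
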