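import Pool.Agent.helper57.MF.Rows7
import Pool.Agent.helper57.MF.EMasm
import Pool.Agent.helper16.MF.S7C
import Pool.Agent.MF.JCfinal
import Pool.Agent.MF.ColI
import Pool.Agent.helper43.MF.S45

set_option autoImplicit false

/-!
# MP_141f81: `StmtEM` (Sections 4 - 8)
-/

namespace Pool.Agent.helper57.MF

open Finset Pool.Agent.MF
open Pool.Agent.helper35.MF (Ball ball_add CoarseF wd sy phi phiv HH)
open Pool.Agent.helper16.MF (C7 Slot In7 bounded7)
open Pool.Agent.helper20.MF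
open Pool.Agent.helper36.MF (FB MB NL ColIn collar)

theorem gen_ball0 {G : Type*} [AddCommGroup G] {T : Set G} {g : G} (h : g ∈ T) : g ∈ Ball T 1 :=
  ⟨[g], by simp, by intro x hx; rw [List.mem_singleton] at hx; rw [hx]; exact h, by simp⟩

theorem mem_closure_ball {G : Type*} [AddCommGroup G] (two : ∀ g : G, g + g = 0) (T : Set G) {g : G}
    (hg : g ∈ AddSubgroup.closure T) : ∃ b, g ∈ Ball T b := by
  induction hg using AddSubgroup.closure_induction with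
  | mem x hx => exact ⟨1, gen_ball0 hx⟩
  | zero => exact ⟨0, Pool.Agent.helper35.MF.Ball.zero _ _⟩
  | add x y _ _ hx hy =>
    obtain ⟨b1, h1⟩ := hx
    obtain ⟨b2, h2⟩ := hy
    exact ⟨b1 + b2, ball_add h1 h2⟩
  | neg x _ hx =>
    rw [neg_eq_iff_add_eq_zero.mpr (two x)]
    exact hx

/-- **EM** -/
theorem stmtEM : StmtEM := by
  obtain ⟨s0, h45⟩ := Helper43.Prism.stmt45 7730
  refine ⟨s0, ?_⟩
  intro N _ _ _ s hs M hr Lin a b A B sq hK c hc
  obtain ⟨d, C0, hd, hR⟩ := h45 N s hs M hr c hc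
  obtain ⟨κ1, hκ1, hJ1⟩ := stmtJC N M.near univ d hd
  obtain ⟨κ2, hκ2, hJ2⟩ := stmtJC N M.near univ κ1 hκ1
  have hr3 : 3 ≤ M.near.r := three_le_r hK.lin
  obtain ⟨K, q, hcol⟩ := colIn_frame hK.lin hκ1
  set k : C7 := k7 N K q C0 κ1 with hk
  set L := k.bound with hL
  set Kd := 2 ^ FB N K q C0 * (NL N 2 * K) with hKd
  set Cc := MB N K q C0 ^ HH (L + 2) (FB N K q C0) 17 with hCc
  refine ⟨max (max Kd Cc) ⌈κ2⁻¹⌉₊, ?_⟩
  intro n hn R0 hE0 hcard
  obtain ⟨R, -, hE, hRc, hcons⟩ := hR n hn R0 hE0 hcard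
  obtain ⟨S1, hS1⟩ := hJ1 n hn R hE hRc
  have hS1R : S1 ⊆ R := hS1.1
  have hE1 : Exact M.near S1 := fun S v hv ρ hρ σ hσ h => hE S v hv ρ (hS1R hρ) σ (hS1R hσ) h
  obtain ⟨S2, hS2⟩ := hJ2 n hn S1 hE1 hS1.2.1
  have hne : S1.Nonempty := by
    rw [← Finset.card_pos]
    have h1 := hS1.2.1
    have h2 : 0 < κ1 * (n : ℝ) ^ M.near.r := by positivity
    have h3 : (0 : ℝ) < (S1.card : ℝ) := lt_of_lt_of_le h2 h1
    exact_mod_cast h3
  obtain ⟨P, hP⟩ := hcol C0 n R S1 hn hE hS1 hcons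
  obtain ⟨D, F, Dfin, coarse, sym, ballD, cons, covD, covU⟩ := collar hP
  have h7 := in7_of hK hn hκ1 hE hS1 hne Dfin coarse sym ballD cons covD
  have hbd := bounded7 _ h7
  have two : ∀ g : G N n, g + g = 0 := fun g => by
    ext x
    rw [Finsupp.add_apply, Finsupp.zero_apply]
    exact CharTwo.add_self_eq_zero _
  have hlet : ∀ ρ ∈ S1, ∀ v : N, v ≠ 0 → (v, ρ v) ∈ PL M.near ∅ univ S1 := fun ρ hρ v hv =>
    PL_mk hρ (mem_univ _) (SD_empty.2 hv)
  obtain ⟨U, i1, i2, i3, π, hout⟩ := em_asm M.near (by omega) hE1 hS2 (G' := G N n) two (fun v x => lt v x)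
    (Tt M.near ∅ univ R S1)
    (fun ρ hρ u v huv => AddSubgroup.subset_closure
      (Lines_Tt hS1R ⟨ρ, hρ, u, mem_univ _, v, mem_univ _, mem_univ _, huv, rfl⟩))
    D coarse.zero (fun ρ hρ v hv => sym _ (hlet ρ hρ v hv)) (κ := 2) (L := L) coarse.add
    (fun e he hcl => hbd e he (mem_closure_ball two _ hcl)) (C := Cc)
    (by
      intro v hv x ⟨ρ, hρ, hx⟩ A hA
      have h1 := cons (L + 2) (v, x) (by rw [← hx]; exact hlet ρ hρ v hv) (A.image fun y => (v, y)) (by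
        intro p hp
        obtain ⟨y, hy, rfl⟩ := Finset.mem_image.mp hp
        obtain ⟨⟨σ, hσ, hy'⟩, -⟩ := hA y hy
        rw [← hy']
        exact hlet σ hσ v hv) (by
        intro p hp
        obtain ⟨y, hy, rfl⟩ := Finset.mem_image.mp hp
        exact (hA y hy).2)
      rwa [Finset.card_image_of_injective _ (fun y y' h => (Prod.ext_iff.1 h).2)] at h1)
    (Kd := Kd) covU (Tt := max (max Kd Cc) ⌈κ2⁻¹⌉₊) ((le_max_left _ _).trans (le_max_left _ _))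
    ((le_max_right _ _).trans (le_max_left _ _))
    (by
      have h1 : κ2⁻¹ ≤ ((max (max Kd Cc) ⌈κ2⁻¹⌉₊ : ℕ) : ℝ) :=
        (Nat.le_ceil κ2⁻¹).trans (by exact_mod_cast le_max_right _ _)
      calc (1 : ℝ) = κ2 * κ2⁻¹ := by rw [mul_inv_cancel₀ hκ2.ne']
        _ ≤ _ := mul_le_mul_of_nonneg_left h1 hκ2.le)
  exact ⟨S1, S2, U, i1, i2, i3, π, hout⟩

end Pool.Agent.helper57.MF
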