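import Pool.Agent.helper35.MF.Ring

set_option autoImplicit false

/-!
# MP_141f81, Section 8 (A): contraction

A coarse map `φ` with a controlled coarse inverse cannot agree, far from zero, with a coarse map `T` which is small
on a large ball (the bound `Ca` being fixed before the radius of the ball).
-/

namespace Pool.Agent.helper57.MF

open Pool.Agent.helper35.MF Finset

variable {G : Type*} [AddCommGroup G] {N : G → ℕ} {K : Set G} {C R : ℕ} {β : ℕ → ℕ} {m : ℕ}

/-- `b` is reached from `a` by `n` steps of norm at most `r` in `K` -/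
def Reach (N : G → ℕ) (K : Set G) (r : ℕ) : ℕ → G → G → Prop
  | 0, a, b => a = b
  | n + 1, a, b => ∃ c ∈ K, Reach N K r n a c ∧ N (c + b) ≤ r

theorem reach_trans {r n k : ℕ} {a b c : G} (h1 : Reach N K r n a b) (h2 : Reach N K r k b c) :
    Reach N K r (n + k) a c := by
  induction k generalizing c with
  | zero =>
    have h2' : b = c := h2
    subst h2'
    exact h1
  | succ k ih =>
    obtain ⟨c', hc', h3, h4⟩ := h2
    exact ⟨c', hc', ih h3, h4⟩

theorem reach_split {r l1 l2 : ℕ} {a e : G} (he : e ∈ K) (h : Reach N K r (l1 + l2) a e) :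
    ∃ c ∈ K, Reach N K r l1 a c ∧ Reach N K r l2 c e := by
  induction l2 generalizing e with
  | zero => exact ⟨e, he, h, rfl⟩
  | succ l2 ih =>
    obtain ⟨c', hc', h3, h4⟩ := h
    obtain ⟨c, hc, h5, h6⟩ := ih hc' h3
    exact ⟨c, hc, h5, c', hc', h6, h4⟩

section

variable (h : CGroup N K C R β)
include h

theorem Nsum (a b c : G) : N (a + c) ≤ N (a + b) + N (b + c) := by
  have h1 := h.Nadd (a + b) (b + c)
  have h2 : a + b + (b + c) = a + c := by rw [add_assoc, ← add_assoc b b c, h.two, zero_add]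
  rwa [h2] at h1

theorem reach_succ {r n : ℕ} {a b : G} (hb : b ∈ K) (h1 : Reach N K r n a b) : Reach N K r (n + 1) a b :=
  ⟨b, hb, h1, by rw [h.two, h.N0]; exact Nat.zero_le _⟩

theorem reach_mono {r n n' : ℕ} {a b : G} (hb : b ∈ K) (h1 : Reach N K r n a b) (hn : n ≤ n') :
    Reach N K r n' a b := by
  induction n', hn using Nat.le_induction with
  | base => exact h1
  | succ k _ ih => exact reach_succ h hb ih

theorem reach_norm {r n : ℕ} {a b : G} (h1 : Reach N K r n a b) : N (a + b) ≤ n * r := by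
  induction n generalizing b with
  | zero =>
    have h1' : a = b := h1
    rw [h1', h.two, h.N0]
    exact Nat.zero_le _
  | succ n ih =>
    obtain ⟨c, hc, h3, h4⟩ := h1
    have h5 := Nsum h a c b
    have h6 := ih h3
    have h7 : (n + 1) * r = n * r + r := by ring
    omega

omit h in
theorem reach_fun {r : ℕ} {v : ℕ → G} (hv : ∀ i, v i ∈ K) {l : ℕ} (hs : ∀ i < l, N (v i + v (i + 1)) ≤ r) :
    Reach N K r l (v 0) (v l) := by
  induction l with
  | zero => exact rfl
  | succ l ih => exact ⟨v l, hv l, ih (fun i hi => hs i (by omega)), hs l (by omega)⟩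

/-- translation of a path -/
theorem reach_translate {r n : ℕ} {f b : G} (hb : b ∈ K)
    (h1 : Reach N K r n 0 f) (hfK : f ∈ K) :
    ∃ w ∈ K, N (f + b + w) ≤ C ∧ Reach N K (r + 2 * C) (n + 1) b w := by
  induction n generalizing f with
  | zero =>
    have h1' : (0 : G) = f := h1
    obtain ⟨w, hw, hw'⟩ := h.add f hfK b hb
    refine ⟨w, hw, hw', b, hb, rfl, ?_⟩
    rw [← h1', zero_add] at hw'
    omega
  | succ n ih =>
    obtain ⟨c, hc, h3, h4⟩ := h1
    obtain ⟨w, hw, hw', hw2⟩ := ih h3 hc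
    obtain ⟨w', hwK, hwC⟩ := h.add f hfK b hb
    refine ⟨w', hwK, hwC, w, hw, hw2, ?_⟩
    have e1 : w + w' = (c + b + w) + (c + f) + (f + b + w') := by
      have r1 := h.two c
      have r2 := h.two b
      have r3 := h.two f
      calc w + w' = 0 + 0 + 0 + (w + w') := by simp
        _ = (c + c) + (b + b) + (f + f) + (w + w') := by rw [r1, r2, r3]
        _ = _ := by abel
    rw [e1]
    have g1 := h.Nadd ((c + b + w) + (c + f)) (f + b + w')
    have g2 := h.Nadd (c + b + w) (c + f)
    omega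

/-- **Path lemma.** Two points of `K` at distance at most `r` are joined by a path of bounded length with steps of
norm at most `R + 3 C`. -/
theorem path (r : ℕ) : ∃ Λ : ℕ, ∀ a ∈ K, ∀ b ∈ K, N (a + b) ≤ r → Reach N K (R + 3 * C) Λ a b := by
  classical
  obtain ⟨S, -, hSK, hS⟩ := h.cover (r + C)
  have hch : ∀ p ∈ S, ∃ l, Reach N K R l 0 p := by
    intro p hp
    obtain ⟨l, v, hv0, hvl, hvK, hv⟩ := h.chain p (hSK p hp)
    refine ⟨l, ?_⟩
    have := reach_fun (K := K) hvK (l := l) hv
    rwa [hv0, hvl] at this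
  choose! len hlen using hch
  refine ⟨S.sup len + 3, fun a ha b hb hab => ?_⟩
  obtain ⟨f, hf, hf'⟩ := h.add a ha b hb
  have hfN : N f ≤ r + C := by
    have h1 := h.le_add f (a + b)
    rw [add_comm f (a + b)] at h1
    omega
  obtain ⟨p, hp, hp'⟩ := hS f hf hfN
  have h1 : Reach N K R (S.sup len) 0 p :=
    reach_mono h (hSK p hp) (hlen p hp) (Finset.le_sup hp)
  have h2 : Reach N K (R + C) (S.sup len) 0 p := by
    have hm : ∀ n c, Reach N K R n 0 c → Reach N K (R + C) n 0 c := by
      intro n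
      induction n with
      | zero => intro c hc; exact hc
      | succ n ih =>
        rintro c ⟨c', hc', h3, h4⟩
        exact ⟨c', hc', ih c' h3, by omega⟩
    exact hm _ _ h1
  have h3 : Reach N K (R + C) (S.sup len + 1) 0 f := by
    refine ⟨p, hSK p hp, h2, ?_⟩
    rw [add_comm p f]
    omega
  obtain ⟨w, hw, hw', hw2⟩ := reach_translate h hb h3 hf
  have e0 : R + C + 2 * C = R + 3 * C := by ring
  rw [e0] at hw2
  -- a path from `b` to `a`
  have h4 : Reach N K (R + 3 * C) (S.sup len + 3) b a := by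
    refine ⟨w, hw, hw2, ?_⟩
    have e1 : w + a = (f + b + w) + (a + b + f) := by
      have r1 := h.two f
      have r2 := h.two b
      calc w + a = 0 + 0 + (w + a) := by simp
        _ = (f + f) + (b + b) + (w + a) := by rw [r1, r2]
        _ = _ := by abel
    rw [e1]
    have g1 := h.Nadd (f + b + w) (a + b + f)
    omega
  -- reverse
  have hrev : ∀ n c, c ∈ K → Reach N K (R + 3 * C) n b c → Reach N K (R + 3 * C) n c b := by
    intro n
    induction n with
    | zero => intro c _ hc; exact (show b = c from hc).symm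
    | succ n ih =>
      rintro c hcK ⟨c', hc', g3, g4⟩
      have g5 := ih c' hc' g3
      have g6 : Reach N K (R + 3 * C) 1 c c' := ⟨c, hcK, rfl, by rw [add_comm]; exact g4⟩
      have g7 := reach_trans g6 g5
      rwa [add_comm 1 n] at g7
  exact hrev _ _ ha h4

omit h in
/-- the distance of the lifted points -/
def rc (C : ℕ) (F : ℕ → ℕ) (Rφ Ca C1 : ℕ) : ℕ := C + F (F C + F 0 + 2 * (Rφ + C1) + (Ca + F C))

/-- **Contraction, effective form.** `Λ r` bounds the length of the paths between points at distance `r`. -/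
theorem contraction_eff {R' : ℕ} {Λf : ℕ → ℕ}
    (hΛf : ∀ r, ∀ a ∈ K, ∀ b ∈ K, N (a + b) ≤ r → Reach N K R' (Λf r) a b)
    {F : ℕ → ℕ} (mono : Monotone F) {φ : G → G}
    (hφ : ∀ a ∈ K, ∀ b ∈ K, ∀ c ∈ K, N (φ a + φ b + φ c) ≤ F (N (a + b + c)))
    (hφi : ∀ a ∈ K, N a ≤ F (N (φ a))) {Rφ : ℕ} (hdense : ∀ k ∈ K, ∃ e ∈ K, N (φ e + k) ≤ Rφ) {Ca C1 : ℕ}
    {T : G → G} (hTK : ∀ a ∈ K, ∃ k ∈ K, N (T a + k) ≤ C1)
    (hT : ∀ a ∈ K, ∀ b ∈ K, ∀ c ∈ K, N (T a + T b + T c) ≤ F (N (a + b + c)))
    (hTs : ∀ f ∈ K, N f ≤ (2 * Λf (rc C F Rφ Ca C1) + 1) * R' + C → N (T f) ≤ Ca)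
    {e : G} (he : e ∈ K) (hφT : N (φ e + T e) ≤ C1) :
    N e ≤ 4 * Λf (rc C F Rφ Ca C1) * R' := by
  set ρ := Rφ + C1 with hρ
  set r1 := Ca + F C with hr1
  set r4 := C + F (F C + F 0 + 2 * ρ + r1) with hr4
  have hrc : rc C F Rφ Ca C1 = r4 := rfl
  rw [hrc] at hTs ⊢
  have hΛ := hΛf r4
  set Λ := Λf r4 with hΛdef
  set b := 2 * Λ + 1 with hb
  have hT0 : N (T 0) ≤ F 0 := by
    have h1 := hT 0 h.zero 0 h.zero 0 h.zero
    rw [h.two (T 0), zero_add, add_zero, add_zero, h.N0] at h1
    exact h1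
  have key : ∀ n l w, w ∈ K → l ≤ n * b → Reach N K R' l 0 w → ∀ e' ∈ K, N (φ e' + T w) ≤ ρ →
      Reach N K R' (n * Λ + Λ) 0 e' := by
    intro n
    induction n with
    | zero =>
      intro l w hw hl hr e' he' hn
      have hl0 : l = 0 := by simpa using hl
      subst hl0
      have hw0 : (0 : G) = w := hr
      subst hw0
      have g1 : N (φ e') ≤ ρ + F 0 := by
        have := h.le_add (φ e') (T 0)
        omega
      have g2 : N e' ≤ F (ρ + F 0) := (hφi e' he').trans (mono g1)
      have g3 : F (ρ + F 0) ≤ F (F C + F 0 + 2 * ρ + r1) := mono (by omega)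
      have g4 : N ((0 : G) + e') ≤ r4 := by
        rw [zero_add]
        omega
      have := hΛ 0 h.zero e' he' g4
      simpa using this
    | succ n ih =>
      intro l w hw hl hr e' he' hn
      obtain ⟨l1, l2, hl12, hl1, hl2⟩ : ∃ l1 l2, l = l1 + l2 ∧ l1 ≤ n * b ∧ l2 ≤ b := by
        refine ⟨min l (n * b), l - min l (n * b), by omega, min_le_right _ _, ?_⟩
        have : (n + 1) * b = n * b + b := by ring
        omega
      rw [hl12] at hr
      obtain ⟨w', hw', hr1', hr2'⟩ := reach_split hw hr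
      obtain ⟨k, hk, hk'⟩ := hTK w' hw'
      obtain ⟨e'', he'', hke⟩ := hdense k hk
      have hρ'' : N (φ e'' + T w') ≤ ρ := by
        have g := Nsum h (φ e'') k (T w')
        rw [add_comm k (T w')] at g
        omega
      have hI := ih l1 w' hw' hl1 hr1' e'' he'' hρ''
      obtain ⟨f, hf, hf'⟩ := h.add w' hw' w hw
      have hfN : N f ≤ b * R' + C := by
        have g1 := h.le_add f (w' + w)
        rw [add_comm f (w' + w)] at g1
        have g2 := reach_norm h hr2'
        have g3 : l2 * R' ≤ b * R' := Nat.mul_le_mul_right _ hl2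
        omega
      have hTf := hTs f hf hfN
      have hTw : N (T w' + T w) ≤ r1 := by
        have g1 := hT w' hw' w hw f hf
        have g2 := mono hf'
        have g3 := h.le_add (T w' + T w) (T f)
        omega
      have hφφ : N (φ e'' + φ e') ≤ 2 * ρ + r1 := by
        have g1 := Nsum h (φ e'') (T w') (φ e')
        have g2 := Nsum h (T w') (T w) (φ e')
        rw [add_comm (T w) (φ e')] at g2
        omega
      obtain ⟨q, hq, hq'⟩ := h.add e'' he'' e' he'
      have hφq : N (φ q) ≤ F C + 2 * ρ + r1 := by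
        have g1 := hφ e'' he'' e' he' q hq
        have g2 := mono hq'
        have g3 := h.le_add (φ q) (φ e'' + φ e')
        rw [add_comm (φ q) (φ e'' + φ e')] at g3
        omega
      have hqN : N q ≤ F (F C + F 0 + 2 * ρ + r1) :=
        (hφi q hq).trans (mono (by omega))
      have hee : N (e'' + e') ≤ r4 := by
        have g3 := h.le_add (e'' + e') q
        omega
      have hJ := hΛ e'' he'' e' he' hee
      have := reach_trans hI hJ
      have e1 : n * Λ + Λ + Λ = (n + 1) * Λ + Λ := by ring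
      rwa [e1] at this
  -- minimal length
  have hex : ∃ l, Reach N K R' l 0 e := ⟨_, hΛf (N ((0 : G) + e)) 0 h.zero e he le_rfl⟩
  classical
  set l := Nat.find hex with hl
  have hlr : Reach N K R' l 0 e := Nat.find_spec hex
  have hlen : l ≤ (l / b + 1) * b := by
    have h1 := Nat.div_add_mod l b
    have h2 := Nat.mod_lt l (show b > 0 by omega)
    nlinarith
  have hfin := key (l / b + 1) l e he hlen hlr e he (by omega)
  have hmin : l ≤ (l / b + 1) * Λ + Λ := Nat.find_min' hex hfin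
  have hl4 : l ≤ 4 * Λ := by
    have h1 : l / b * b ≤ l := Nat.div_mul_le_self l b
    generalize l / b = t at h1 hmin
    have h2 : t * b = 2 * (t * Λ) + t := by rw [hb]; ring
    have h3 : (t + 1) * Λ = t * Λ + Λ := by ring
    omega
  have h5 := reach_norm h hlr
  rw [zero_add] at h5
  exact h5.trans (Nat.mul_le_mul_right _ hl4)

/-- **Contraction.** -/
theorem contraction {F : ℕ → ℕ} (mono : Monotone F) {φ : G → G}
    (hφ : ∀ a ∈ K, ∀ b ∈ K, ∀ c ∈ K, N (φ a + φ b + φ c) ≤ F (N (a + b + c)))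
    (hφi : ∀ a ∈ K, N a ≤ F (N (φ a))) {Rφ : ℕ} (hdense : ∀ k ∈ K, ∃ e ∈ K, N (φ e + k) ≤ Rφ) (Ca C1 : ℕ) :
    ∃ r l0 : ℕ, ∀ T : G → G, (∀ a ∈ K, ∃ k ∈ K, N (T a + k) ≤ C1) →
      (∀ a ∈ K, ∀ b ∈ K, ∀ c ∈ K, N (T a + T b + T c) ≤ F (N (a + b + c))) →
      (∀ f ∈ K, N f ≤ r → N (T f) ≤ Ca) → ∀ e ∈ K, N (φ e + T e) ≤ C1 → N e ≤ l0 := by
  choose Λf hΛf using path h
  exact ⟨_, _, fun T hTK hT hTs e he hφT =>
    contraction_eff h hΛf mono hφ hφi hdense hTK hT hTs he hφT⟩

/-! ### local version: all elements have norm at most `Lm` -/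

omit h in
/-- the distance of the lifted points, local version -/
def rl (C : ℕ) (F : ℕ → ℕ) (ρ Ca C1 : ℕ) : ℕ := F (2 * (ρ + C1) + (Ca + F C) + F 0 + ρ)

omit h in
/-- bound for the points `T w` on a path to a point of norm at most `S` -/
def tw (C : ℕ) (F Λf : ℕ → ℕ) (Ca C1 S : ℕ) : ℕ := Λf S * (F C + Ca) + F 0 + C1

omit h in
/-- all elements which are used have norm at most `Lc` -/
def Lc (C R' : ℕ) (F Λf : ℕ → ℕ) (ρ Ca C1 S : ℕ) : ℕ :=
  S + Λf S * R' + ((2 * Λf (rl C F ρ Ca C1) + 1) * R' + C) + tw C F Λf Ca C1 S + F (tw C F Λf Ca C1 S) + (R' + C)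

/-- **Contraction, local form.** `Λ r` bounds the length of the paths between points at distance `r`; `S` bounds the
norm of `e`; all hypotheses are only needed for elements of norm at most `Lm`. -/
theorem contraction_loc {R' : ℕ} {Λf : ℕ → ℕ}
    (hΛf : ∀ r, ∀ a ∈ K, ∀ b ∈ K, N (a + b) ≤ r → Reach N K R' (Λf r) a b)
    {F : ℕ → ℕ} (mono : Monotone F) {φ : G → G} {ρ Ca C1 S Lm : ℕ} (hLm : Lc C R' F Λf ρ Ca C1 S ≤ Lm)
    (hφ0 : N (φ 0) ≤ ρ)
    (hφi : ∀ a ∈ K, ∀ b ∈ K, N a ≤ Lm → N b ≤ Lm → N (a + b) ≤ F (N (φ a + φ b)))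
    (hdense : ∀ k ∈ K, N k ≤ Lm → ∃ e ∈ K, N (φ e + k) ≤ ρ ∧ N e ≤ F (N k))
    {T : G → G} (hTK : ∀ a ∈ K, N a ≤ Lm → ∃ k ∈ K, N (T a + k) ≤ C1)
    (hT : ∀ a ∈ K, ∀ b ∈ K, ∀ c ∈ K, N a ≤ Lm → N b ≤ Lm → N c ≤ Lm →
      N (T a + T b + T c) ≤ F (N (a + b + c)))
    (hTs : ∀ f ∈ K, N f ≤ (2 * Λf (rl C F ρ Ca C1) + 1) * R' + C → N (T f) ≤ Ca)
    {e : G} (he : e ∈ K) (heS : N e ≤ S) (hφT : N (φ e + T e) ≤ C1) :
    N e ≤ 4 * Λf (rl C F ρ Ca C1) * R' := by
  set ρ' := ρ + C1 with hρ'
  set r1 := Ca + F C with hr1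
  set r4 := F (2 * ρ' + r1 + F 0 + ρ) with hr4
  have hrl : rl C F ρ Ca C1 = r4 := rfl
  rw [hrl] at hTs ⊢
  have hΛ := hΛf r4
  set W := Λf S * R' with hW
  set tt := tw C F Λf Ca C1 S with htt
  have htt' : tt = Λf S * (F C + Ca) + F 0 + C1 := rfl
  have hLm' : S + W + ((2 * Λf r4 + 1) * R' + C) + tt + F tt + (R' + C) ≤ Lm := hLm
  set Λ := Λf r4 with hΛdef
  set b := 2 * Λ + 1 with hb
  have hbR : R' ≤ b * R' := by
    have : 1 * R' ≤ b * R' := Nat.mul_le_mul_right _ (by omega)
    rwa [one_mul] at this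
  have hT0 : N (T 0) ≤ F 0 := by
    have h1 := hT 0 h.zero 0 h.zero 0 h.zero (by rw [h.N0]; omega) (by rw [h.N0]; omega) (by rw [h.N0]; omega)
    rw [h.two (T 0), zero_add, add_zero, add_zero, h.N0] at h1
    exact h1
  -- norms on the path
  have hnW : ∀ l w, l ≤ Λf S → Reach N K R' l 0 w → N w ≤ W := by
    intro l w hl hr
    have h1 := reach_norm h hr
    rw [zero_add] at h1
    exact h1.trans (Nat.mul_le_mul_right _ hl)
  have hTw0 : ∀ l w, w ∈ K → l ≤ Λf S → Reach N K R' l 0 w → N (T w) ≤ l * (F C + Ca) + F 0 := by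
    intro l
    induction l with
    | zero =>
      intro w _ _ hr
      have hw0 : (0 : G) = w := hr
      rw [← hw0]
      omega
    | succ l ih =>
      intro w hw hl hr
      have hNw := hnW _ _ hl hr
      obtain ⟨c, hc, hr', hs⟩ := hr
      have hNc := hnW l c (by omega) hr'
      have hI := ih c hc (by omega) hr'
      obtain ⟨f, hf, hf'⟩ := h.add c hc w hw
      have hfN : N f ≤ R' + C := by
        have g1 := h.le_add f (c + w)
        rw [add_comm f (c + w)] at g1
        omega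
      have hTf := hTs f hf (by omega)
      have g1 := hT c hc w hw f hf (by omega) (by omega) (by omega)
      have g2 := mono hf'
      have g3 := h.le_add (T w) (T c + T f)
      have e1 : T w + (T c + T f) = T c + T w + T f := by abel
      rw [e1] at g3
      have g4 := h.Nadd (T c) (T f)
      have g5 : (l + 1) * (F C + Ca) = l * (F C + Ca) + (F C + Ca) := by ring
      omega
  have key : ∀ n l w, w ∈ K → l ≤ n * b → l ≤ Λf S → Reach N K R' l 0 w → ∀ e' ∈ K, N e' ≤ Lm →
      N (φ e' + T w) ≤ ρ' → Reach N K R' (n * Λ + Λ) 0 e' := by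
    intro n
    induction n with
    | zero =>
      intro l w hw hl _ hr e' he' heL hn
      have hl0 : l = 0 := by simpa using hl
      subst hl0
      have hw0 : (0 : G) = w := hr
      subst hw0
      have g1 : N (φ e' + φ 0) ≤ ρ' + F 0 + ρ := by
        have q1 := Nsum h (φ e') (T 0) (φ 0)
        have q2 := h.Nadd (T 0) (φ 0)
        omega
      have g2 : N (e' + 0) ≤ F (ρ' + F 0 + ρ) :=
        (hφi e' he' 0 h.zero heL (by rw [h.N0]; omega)).trans (mono g1)
      have g3 : F (ρ' + F 0 + ρ) ≤ r4 := mono (by omega)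
      have g4 : N ((0 : G) + e') ≤ r4 := by
        rw [add_comm 0 e']
        omega
      have := hΛ 0 h.zero e' he' g4
      simpa using this
    | succ n ih =>
      intro l w hw hl hlS hr e' he' heL hn
      obtain ⟨l1, l2, hl12, hl1, hl2⟩ : ∃ l1 l2, l = l1 + l2 ∧ l1 ≤ n * b ∧ l2 ≤ b := by
        refine ⟨min l (n * b), l - min l (n * b), by omega, min_le_right _ _, ?_⟩
        have : (n + 1) * b = n * b + b := by ring
        omega
      have hNw := hnW _ _ hlS hr
      rw [hl12] at hr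
      obtain ⟨w', hw', hr1', hr2'⟩ := reach_split hw hr
      have hl1S : l1 ≤ Λf S := by omega
      have hNw' := hnW _ _ hl1S hr1'
      obtain ⟨k, hk, hk'⟩ := hTK w' hw' (by omega)
      have hkN : N k ≤ tt := by
        have g1 := hTw0 l1 w' hw' hl1S hr1'
        have g2 := h.le_add k (T w')
        rw [add_comm k (T w')] at g2
        have g3 : l1 * (F C + Ca) ≤ Λf S * (F C + Ca) := Nat.mul_le_mul_right _ hl1S
        omega
      obtain ⟨e'', he'', hke, heN⟩ := hdense k hk (by omega)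
      have heN' : N e'' ≤ F tt := heN.trans (mono hkN)
      have hρ'' : N (φ e'' + T w') ≤ ρ' := by
        have g := Nsum h (φ e'') k (T w')
        rw [add_comm k (T w')] at g
        omega
      have hI := ih l1 w' hw' hl1 hl1S hr1' e'' he'' (by omega) hρ''
      obtain ⟨f, hf, hf'⟩ := h.add w' hw' w hw
      have hfN : N f ≤ b * R' + C := by
        have g1 := h.le_add f (w' + w)
        rw [add_comm f (w' + w)] at g1
        have g2 := reach_norm h hr2'
        have g3 : l2 * R' ≤ b * R' := Nat.mul_le_mul_right _ hl2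
        omega
      have hTf := hTs f hf hfN
      have hTw : N (T w' + T w) ≤ r1 := by
        have g1 := hT w' hw' w hw f hf (by omega) (by omega) (by omega)
        have g2 := mono hf'
        have g3 := h.le_add (T w' + T w) (T f)
        omega
      have hφφ : N (φ e'' + φ e') ≤ 2 * ρ' + r1 + F 0 + ρ := by
        have g1 := Nsum h (φ e'') (T w') (φ e')
        have g2 := Nsum h (T w') (T w) (φ e')
        rw [add_comm (T w) (φ e')] at g2
        omega
      have hee : N (e'' + e') ≤ r4 :=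
        (hφi e'' he'' e' he' (by omega) heL).trans (mono hφφ)
      have hJ := hΛ e'' he'' e' he' hee
      have := reach_trans hI hJ
      have e1 : n * Λ + Λ + Λ = (n + 1) * Λ + Λ := by ring
      rwa [e1] at this
  -- minimal length
  have hex : ∃ l, Reach N K R' l 0 e := ⟨_, hΛf S 0 h.zero e he (by rw [zero_add]; exact heS)⟩
  classical
  have hlS : Nat.find hex ≤ Λf S := Nat.find_min' hex (hΛf S 0 h.zero e he (by rw [zero_add]; exact heS))
  set l := Nat.find hex with hl
  have hlr : Reach N K R' l 0 e := Nat.find_spec hex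
  have hlen : l ≤ (l / b + 1) * b := by
    have h1 := Nat.div_add_mod l b
    have h2 := Nat.mod_lt l (show b > 0 by omega)
    nlinarith
  have hfin := key (l / b + 1) l e he hlen hlS hlr e he (by omega) (by omega)
  have hmin : l ≤ (l / b + 1) * Λ + Λ := Nat.find_min' hex hfin
  have hl4 : l ≤ 4 * Λ := by
    have h1 : l / b * b ≤ l := Nat.div_mul_le_self l b
    generalize l / b = t at h1 hmin
    have h2 : t * b = 2 * (t * Λ) + t := by rw [hb]; ring
    have h3 : (t + 1) * Λ = t * Λ + Λ := by ring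
    omega
  have h5 := reach_norm h hlr
  rw [zero_add] at h5
  exact h5.trans (Nat.mul_le_mul_right _ hl4)

end

end Pool.Agent.helper57.MF
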