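import Pool.Agent.helper57.MF.Types
import Pool.Agent.helper57.MF.Spread
import Pool.Agent.helper57.MF.Corner

set_option autoImplicit false

/-!
# MP_141f81, Section 8: the component `K*` is bounded

Local version: all properties of the multiplications and of the squaring are only used for elements of norm at most
`Lm`; the classes may depend on a centre.
-/

namespace Pool.Agent.helper57.MF

open Pool.Agent.helper35.MF Finset

/-- the constants: `C` error, `R` chain step, `β` covering numbers, `F` distortion, `Λ r` chain length between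
points at distance at most `r`, `ρ` density of `φ K`, `κ` net radius, `B` ball bound for symbols, `q` number of
classes, `c` density -/
structure Const where
  C : ℕ
  R : ℕ
  β : ℕ → ℕ
  F : ℕ → ℕ
  Λ : ℕ → ℕ
  ρ : ℕ
  κ : ℕ
  B : ℕ
  q : ℕ
  c : ℝ
  cpos : 0 < c
  Fmono : Monotone F

/-- **The input of Section 8.** `X`, `Y`, `U` are the symbols of the columns `x`, `y`, `u = x + y`; `A` the set of
(typical, cleaned) lines `(x,y,u)`, `u = th (x,y)`; `pxy`, `pxu` the products, `sq x` the symbol `x` in the role of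
`x²`; `Mx`, `My`, `Mu` the multiplications on `K = K*`, `φ` the squaring. -/
structure KillData (k : Const) (Lm : ℕ) {G : Type} [AddCommGroup G] (N : G → ℕ) (K : Set G)
    {X Y U : Type} [Fintype X] [Fintype Y] [Fintype U]
    (vx : X → G) (vy : Y → G) (vu : U → G) (A : Finset (X × Y)) (th : X × Y → U)
    (pxy : X → Y → G) (pxu : X → U → G) (sq : X → G)
    (Mx : X → G → G) (My : Y → G → G) (Mu : U → G → G) (φ : G → G)
    (D1 D2 : Finset G) : Prop extends CGroup N K k.C k.R k.β where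
  /-- chains of bounded length -/
  chainΛ : ∀ r, ∀ u ∈ K, ∀ v ∈ K, N (u + v) ≤ r → ∃ l ≤ k.Λ r, ∃ w : ℕ → G, w 0 = u ∧ w l = v ∧
    (∀ i, w i ∈ K) ∧ ∀ i < l, N (w i + w (i + 1)) ≤ k.R
  /-- lines -/
  line : ∀ p ∈ A, N (vx p.1 + vy p.2 + vu (th p)) ≤ k.C
  /-- `x² = xy + xu` -/
  ident : ∀ p ∈ A, N (sq p.1 + pxy p.1 p.2 + pxu p.1 (th p)) ≤ k.C
  /-- `M_y` on differences of the column `x` -/
  h1 : ∀ g : G, ∃ cl : Y → X → Fin k.q, ∀ x x' y, (x, y) ∈ A → (x', y) ∈ A → N (vx x + g) ≤ Lm →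
    N (vx x' + g) ≤ Lm → cl y x = cl y x' → ∀ e ∈ K, N e ≤ Lm →
    N (vx x + vx x' + e) ≤ 2 * k.κ + 9 * k.C → N (pxy x y + pxy x' y + My y e) ≤ k.C
  /-- `M_x` on differences of the column `y` -/
  h2 : ∀ g : G, ∃ cl : X → Y → Fin k.q, ∀ x y y', (x, y) ∈ A → (x, y') ∈ A → N (vy y + g) ≤ Lm →
    N (vy y' + g) ≤ Lm → cl x y = cl x y' → ∀ e ∈ K, N e ≤ Lm →
    N (vy y + vy y' + e) ≤ 2 * k.κ + 9 * k.C → N (pxy x y + pxy x y' + Mx x e) ≤ k.C
  /-- `M_u` on differences of the column `x` -/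
  h3 : ∀ g : G, ∃ cl : U → X → Fin k.q, ∀ p ∈ A, ∀ p' ∈ A, th p = th p' → N (vx p.1 + g) ≤ Lm →
    N (vx p'.1 + g) ≤ Lm → cl (th p) p.1 = cl (th p) p'.1 → ∀ e ∈ K, N e ≤ Lm →
    N (vx p.1 + vx p'.1 + e) ≤ 2 * k.κ + 9 * k.C →
      N (pxu p.1 (th p) + pxu p'.1 (th p) + Mu (th p) e) ≤ k.C
  /-- `φ` on differences of the column `x` -/
  h4 : ∀ g : G, ∃ cl : X → Fin k.q, ∀ p ∈ A, ∀ p' ∈ A, N (vx p.1 + g) ≤ Lm →
    N (vx p'.1 + g) ≤ Lm → cl p.1 = cl p'.1 → ∀ e ∈ K, N e ≤ Lm →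
    N (vx p.1 + vx p'.1 + e) ≤ 2 * k.κ + 9 * k.C → N (sq p.1 + sq p'.1 + φ e) ≤ k.C
  /-- `M_x + M_y + M_u ∼ 0` on lines -/
  hsum : ∀ p ∈ A, ∀ e ∈ K, N e ≤ Lm → N (Mx p.1 e + My p.2 e + Mu (th p) e) ≤ k.C
  /-- `M_x` maps `K` to `K` and is coarsely additive -/
  MxK : ∀ p ∈ A, ∀ u ∈ K, N u ≤ Lm → ∃ v ∈ K, N (Mx p.1 u + v) ≤ k.C
  Mxadd : ∀ p ∈ A, ∀ u ∈ K, ∀ v ∈ K, ∀ w ∈ K, N u ≤ Lm → N v ≤ Lm → N w ≤ Lm →
    N (Mx p.1 u + Mx p.1 v + Mx p.1 w) ≤ k.F (N (u + v + w))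
  /-- `φ` has dense image and a coarse inverse -/
  φ0 : N (φ 0) ≤ k.ρ
  φdense : ∀ u ∈ K, N u ≤ Lm → ∃ v ∈ K, N (φ v + u) ≤ k.ρ ∧ N v ≤ k.F (N u)
  φinv : ∀ u ∈ K, ∀ v ∈ K, N u ≤ Lm → N v ≤ Lm → N (u + v) ≤ k.F (N (φ u + φ v))
  /-- nets of the words `x + e`, `y + e` and the density of `A` -/
  net1 : ∀ x, ∀ e ∈ K, ∃ d ∈ D1, N (vx x + e + d) ≤ k.κ
  net2 : ∀ y, ∀ e ∈ K, ∃ d ∈ D2, N (vy y + e + d) ≤ k.κ
  dens : k.c * ((D1.card : ℝ) * (D2.card : ℝ)) ≤ (A.card : ℝ)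
  Apos : A.Nonempty
  /-- bounded geometry of the symbols (b-consistency) -/
  ball1 : ∀ g : G, ∀ S : Finset X, (∀ x ∈ S, N (vx x + g) ≤ k.κ) → S.card ≤ k.B
  ball2 : ∀ g : G, ∀ S : Finset Y, (∀ y ∈ S, N (vy y + g) ≤ k.κ) → S.card ≤ k.B
  ball3 : ∀ g : G, ∀ S : Finset U, (∀ u ∈ S, N (vu u + g) ≤ 2 * k.κ + 10 * k.C) → S.card ≤ k.B

/-- numbering of the points of a ball -/
theorem exists_num {G X : Type} [AddCommGroup G] [Fintype X] {N : G → ℕ} {v : X → G} {κ B : ℕ}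
    (hB : ∀ g : G, ∀ S : Finset X, (∀ x ∈ S, N (v x + g) ≤ κ) → S.card ≤ B) (g : G) :
    ∃ ν : X → Fin (B + 1), ∀ x x', N (v x + g) ≤ κ → N (v x' + g) ≤ κ → ν x = ν x' → x = x' := by
  classical
  set S := Finset.univ.filter (fun x : X => N (v x + g) ≤ κ) with hS
  have h1 : S.card ≤ B := hB g S (fun x hx => (Finset.mem_filter.mp hx).2)
  have h2 : Fintype.card S ≤ Fintype.card (Fin B) := by
    rw [Fintype.card_coe, Fintype.card_fin]
    exact h1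
  obtain ⟨ι⟩ := Function.Embedding.nonempty_of_card_le h2
  refine ⟨fun x => if hx : x ∈ S then (ι ⟨x, hx⟩).castSucc else Fin.last B, fun x x' hx hx' he => ?_⟩
  have m1 : x ∈ S := Finset.mem_filter.mpr ⟨Finset.mem_univ _, hx⟩
  have m2 : x' ∈ S := Finset.mem_filter.mpr ⟨Finset.mem_univ _, hx'⟩
  simp only [m1, m2, dif_pos] at he
  have h3 := ι.injective (Fin.castSucc_injective B he)
  exact congrArg Subtype.val h3

/-- the seven relations at a corner -/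
theorem seven {G : Type*} [AddCommGroup G] {N : G → ℕ} (two : ∀ g : G, g + g = 0)
    (Nadd : ∀ a b, N (a + b) ≤ N a + N b) {C : ℕ}
    {s2 s3 f a21 a11 a13 u2 u3 m1 m2 my mu : G}
    (e1 : N (s2 + s3 + f) ≤ C) (e2 : N (s2 + a21 + u2) ≤ C) (e3 : N (s3 + a13 + u3) ≤ C)
    (e4 : N (a21 + a11 + my) ≤ C) (e5 : N (a11 + a13 + m1) ≤ C) (e6 : N (u2 + u3 + mu) ≤ C)
    (e7 : N (m2 + my + mu) ≤ C) : N (f + (m1 + m2)) ≤ 7 * C := by
  have key : f + (m1 + m2) = (s2 + s3 + f) + (s2 + a21 + u2) + (s3 + a13 + u3) + (a21 + a11 + my) +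
      (a11 + a13 + m1) + (u2 + u3 + mu) + (m2 + my + mu) := by
    have : (s2 + s3 + f) + (s2 + a21 + u2) + (s3 + a13 + u3) + (a21 + a11 + my) +
      (a11 + a13 + m1) + (u2 + u3 + mu) + (m2 + my + mu) =
      (s2 + s2) + (s3 + s3) + (a21 + a21) + (u2 + u2) + (a13 + a13) + (u3 + u3) + (a11 + a11) +
        (my + my) + (mu + mu) + (f + (m1 + m2)) := by abel
    rw [this]
    simp only [two, zero_add]
  rw [key]
  have g1 := Nadd ((s2 + s3 + f) + (s2 + a21 + u2) + (s3 + a13 + u3) + (a21 + a11 + my) +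
      (a11 + a13 + m1) + (u2 + u3 + mu)) (m2 + my + mu)
  have g2 := Nadd ((s2 + s3 + f) + (s2 + a21 + u2) + (s3 + a13 + u3) + (a21 + a11 + my) +
      (a11 + a13 + m1)) (u2 + u3 + mu)
  have g3 := Nadd ((s2 + s3 + f) + (s2 + a21 + u2) + (s3 + a13 + u3) + (a21 + a11 + my)) (a11 + a13 + m1)
  have g4 := Nadd ((s2 + s3 + f) + (s2 + a21 + u2) + (s3 + a13 + u3)) (a21 + a11 + my)
  have g5 := Nadd ((s2 + s3 + f) + (s2 + a21 + u2)) (s3 + a13 + u3)
  have g6 := Nadd (s2 + s3 + f) (s2 + a21 + u2)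
  omega

/-- **Theorem 8.** The component is bounded. -/
theorem kill (k : Const) : ∃ Lm L : ℕ, ∀ {G : Type} [AddCommGroup G] {N : G → ℕ} {K : Set G}
    {X Y U : Type} [Fintype X] [Fintype Y] [Fintype U] {vx : X → G} {vy : Y → G} {vu : U → G}
    {A : Finset (X × Y)} {th : X × Y → U} {pxy : X → Y → G} {pxu : X → U → G} {sq : X → G}
    {Mx : X → G → G} {My : Y → G → G} {Mu : U → G → G} {φ : G → G} {D1 D2 : Finset G},
    KillData k Lm N K vx vy vu A th pxy pxu sq Mx My Mu φ D1 D2 → ∀ e ∈ K, N e ≤ L := by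
  classical
  -- constants
  set C := k.C with hC
  set R := k.R with hR
  set F := k.F with hF
  set F2 : ℕ → ℕ := fun t => 2 * F t with hF2
  have F2mono : Monotone F2 := fun a b hab => Nat.mul_le_mul_left 2 (k.Fmono hab)
  set Ca := 4 * C + 2 * (F C + F 0) with hCa
  set r4 := rl C F2 k.ρ Ca (7 * C) with hr4
  set r := (2 * k.Λ r4 + 1) * R + C with hr
  set l0 := 4 * k.Λ r4 * R with hl0
  set nτ := k.β (F (r + C) + C) ^ k.β r + 1 with hnτ
  have hδ : 0 < k.c / ((k.B : ℝ) * k.B + 1) := by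
    have := k.cpos
    positivity
  obtain ⟨m, hm⟩ := corners hδ (Fintype.card (Fin (k.B + 1) × Fin (k.B + 1) × Fin (k.B + 1) × Fin nτ ×
    Fin k.q × Fin k.q × Fin k.q × Fin k.q))
  obtain ⟨L1, hL1⟩ := spread.{0} C R k.β m l0
  set S := 2 * L1 + C with hS
  set Lm := Lc C R F2 k.Λ k.ρ Ca (7 * C) S + (r + C) + (k.κ + S) with hLm
  refine ⟨Lm, L1, ?_⟩
  intro G _ N K X Y U _ _ _ vx vy vu A th pxy pxu sq Mx My Mu φ D1 D2 hd
  have h := hd.toCGroup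
  by_contra hcon
  push Not at hcon
  obtain ⟨e0, he0, he0'⟩ := hcon
  obtain ⟨s, hsK, hsadd, hsU, hsL⟩ := hL1 h ⟨e0, he0, he0'⟩
  obtain ⟨d1, d2, P, hPc, hP⟩ := average N A vx vy D1 D2 s k.κ k.B (fun x a => hd.net1 x (s a) (hsK a))
    (fun y b => hd.net2 y (s b) (hsK b))
    (fun g => hd.ball1 g _ (fun x hx => (Finset.mem_filter.mp hx).2))
    (fun g => hd.ball2 g _ (fun y hy => (Finset.mem_filter.mp hy).2))
  -- density of `P`
  have hPd : k.c / ((k.B : ℝ) * k.B + 1) * (4 : ℝ) ^ m ≤ P.card := by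
    obtain ⟨w0, hw0⟩ := hd.Apos
    obtain ⟨x1, hx1, -⟩ := hd.net1 w0.1 0 h.zero
    obtain ⟨x2, hx2, -⟩ := hd.net2 w0.2 0 h.zero
    have p1 : (0 : ℝ) < D1.card := by exact_mod_cast Finset.card_pos.mpr ⟨x1, hx1⟩
    have p2 : (0 : ℝ) < D2.card := by exact_mod_cast Finset.card_pos.mpr ⟨x2, hx2⟩
    have q1 : (A.card : ℝ) * (4 : ℝ) ^ m ≤ D1.card * D2.card * k.B * k.B * P.card := by exact_mod_cast hPc
    have q2 := hd.dens
    have q3 : k.c * ((D1.card : ℝ) * D2.card) * (4 : ℝ) ^ m ≤ (A.card : ℝ) * (4 : ℝ) ^ m :=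
      mul_le_mul_of_nonneg_right q2 (by positivity)
    have q4 : ((D1.card : ℝ) * D2.card) * (k.c * (4 : ℝ) ^ m) ≤
        ((D1.card : ℝ) * D2.card) * ((k.B : ℝ) * k.B * P.card) := by
      calc ((D1.card : ℝ) * D2.card) * (k.c * (4 : ℝ) ^ m) =
          k.c * ((D1.card : ℝ) * D2.card) * (4 : ℝ) ^ m := by ring
        _ ≤ (A.card : ℝ) * (4 : ℝ) ^ m := q3
        _ ≤ D1.card * D2.card * k.B * k.B * P.card := q1
        _ = _ := by ring
    have q5 := le_of_mul_le_mul_left q4 (by positivity)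
    rw [div_mul_eq_mul_div, div_le_iff₀ (by positivity)]
    have q6 : (0 : ℝ) ≤ P.card := by positivity
    nlinarith
  -- lines
  have hP' : ∀ p : (Fin m → ZMod 2) × (Fin m → ZMod 2), ∃ w : X × Y, p ∈ P →
      w ∈ A ∧ N (vx w.1 + s p.1 + d1) ≤ k.κ ∧ N (vy w.2 + s p.2 + d2) ≤ k.κ := by
    intro p
    by_cases hp : p ∈ P
    · obtain ⟨w, hw, hw1, hw2⟩ := hP p hp
      exact ⟨w, fun _ => ⟨hw, hw1, hw2⟩⟩
    · obtain ⟨w0, hw0⟩ := hd.Apos
      exact ⟨w0, fun h' => absurd h' hp⟩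
  choose ln hln using hP'
  -- numberings, types, classes
  choose νx hνx using exists_num (v := vx) hd.ball1
  choose νy hνy using exists_num (v := vy) hd.ball2
  choose νu hνu using exists_num (v := vu) hd.ball3
  obtain ⟨τ, hτ⟩ := types h (F := F) k.Fmono (r := r) (Lm := Lm) (by omega) Mx {x | ∃ y, (x, y) ∈ A}
    (fun x ⟨y, hy⟩ u hu huL => hd.MxK (x, y) hy u hu huL)
    (fun x ⟨y, hy⟩ u hu v hv w hw h1 h2 h3 => hd.Mxadd (x, y) hy u hu v hv w hw h1 h2 h3)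
  obtain ⟨c1, hc1⟩ := hd.h1 d1
  obtain ⟨c2, hc2⟩ := hd.h2 d2
  obtain ⟨c3, hc3⟩ := hd.h3 d1
  obtain ⟨c4, hc4⟩ := hd.h4 d1
  -- the colouring
  set tup : (Fin m → ZMod 2) × (Fin m → ZMod 2) → Fin (k.B + 1) × Fin (k.B + 1) × Fin (k.B + 1) × Fin nτ ×
    Fin k.q × Fin k.q × Fin k.q × Fin k.q := fun p =>
    (νx (s p.1 + d1) (ln p).1, νy (s p.2 + d2) (ln p).2, νu (s (p.1 + p.2) + d1 + d2) (th (ln p)),
      τ (ln p).1, c1 (ln p).2 (ln p).1, c2 (ln p).1 (ln p).2, c3 (th (ln p)) (ln p).1, c4 (ln p).1) with htup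
  obtain ⟨a, b, d, hd0, m1, m2, m3, k1, k2⟩ := hm P (fun p => Fintype.equivFin _ (tup p)) hPd
  have k1' : tup (a, b) = tup (a + d, b) := (Fintype.equivFin _).injective k1
  have k2' : tup (a, b) = tup (a, b + d) := (Fintype.equivFin _).injective k2
  simp only [htup, Prod.mk.injEq] at k1' k2'
  obtain ⟨-, ky, ku1, kt, kc1, -, kc31, kc41⟩ := k1'
  obtain ⟨kx, -, ku2, -, -, kc2, kc32, kc42⟩ := k2'
  obtain ⟨A1, X1, Y1⟩ := hln (a, b) m1
  obtain ⟨A2, X2, Y2⟩ := hln (a + d, b) m2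
  obtain ⟨A3, X3, Y3⟩ := hln (a, b + d) m3
  have two := h.two
  -- `x` for `a`
  have hx : (ln (a, b)).1 = (ln (a, b + d)).1 :=
    hνx (s a + d1) _ _ (by rw [← add_assoc]; exact X1) (by rw [← add_assoc]; exact X3) kx
  have hy : (ln (a, b)).2 = (ln (a + d, b)).2 :=
    hνy (s b + d2) _ _ (by rw [← add_assoc]; exact Y1) (by rw [← add_assoc]; exact Y2) ky
  have hub : ∀ p, p ∈ P → N (vu (th (ln p)) + (s (p.1 + p.2) + d1 + d2)) ≤ 2 * k.κ + 10 * k.C := by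
    intro p hp
    obtain ⟨B1, B2, B3⟩ := hln p hp
    have g0 := hd.line (ln p) B1
    have g1 := hsadd p.1 p.2
    have e1 : vu (th (ln p)) + (s (p.1 + p.2) + d1 + d2) =
        (vx (ln p).1 + vy (ln p).2 + vu (th (ln p))) + (vx (ln p).1 + s p.1 + d1) +
          (vy (ln p).2 + s p.2 + d2) + (s p.1 + s p.2 + s (p.1 + p.2)) := by
      have : (vx (ln p).1 + vy (ln p).2 + vu (th (ln p))) + (vx (ln p).1 + s p.1 + d1) +
          (vy (ln p).2 + s p.2 + d2) + (s p.1 + s p.2 + s (p.1 + p.2)) =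
          (vx (ln p).1 + vx (ln p).1) + (vy (ln p).2 + vy (ln p).2) + (s p.1 + s p.1) + (s p.2 + s p.2) +
          (vu (th (ln p)) + (s (p.1 + p.2) + d1 + d2)) := by abel
      rw [this]
      simp only [two, zero_add]
    rw [e1]
    have g2 := h.Nadd ((vx (ln p).1 + vy (ln p).2 + vu (th (ln p))) + (vx (ln p).1 + s p.1 + d1) +
          (vy (ln p).2 + s p.2 + d2)) (s p.1 + s p.2 + s (p.1 + p.2))
    have g3 := h.Nadd ((vx (ln p).1 + vy (ln p).2 + vu (th (ln p))) + (vx (ln p).1 + s p.1 + d1))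
          (vy (ln p).2 + s p.2 + d2)
    have g4 := h.Nadd (vx (ln p).1 + vy (ln p).2 + vu (th (ln p))) (vx (ln p).1 + s p.1 + d1)
    omega
  have hu : th (ln (a + d, b)) = th (ln (a, b + d)) := by
    have e1 := hub (a + d, b) m2
    have e2 := hub (a, b + d) m3
    have e3 : a + d + b = a + (b + d) := by abel
    have kk : νu (s (a + d + b) + d1 + d2) (th (ln (a + d, b))) =
        νu (s (a + (b + d)) + d1 + d2) (th (ln (a, b + d))) := ku1.symm.trans ku2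
    simp only at e1 e2
    rw [e3] at e1 kk
    exact hνu _ _ _ e1 e2 kk
  -- norms
  have hsL' : N (s d) ≤ S := hsU d
  have hsLm : N (s d) ≤ Lm := by omega
  have hcx : ∀ p, p ∈ P → N (vx (ln p).1 + d1) ≤ Lm := by
    intro p hp
    obtain ⟨-, B2, -⟩ := hln p hp
    have g1 := h.le_add (vx (ln p).1 + d1) (s p.1)
    have e1 : vx (ln p).1 + d1 + s p.1 = vx (ln p).1 + s p.1 + d1 := by abel
    rw [e1] at g1
    have g2 := hsU p.1
    omega
  have hcy : ∀ p, p ∈ P → N (vy (ln p).2 + d2) ≤ Lm := by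
    intro p hp
    obtain ⟨-, -, B3⟩ := hln p hp
    have g1 := h.le_add (vy (ln p).2 + d2) (s p.2)
    have e1 : vy (ln p).2 + d2 + s p.2 = vy (ln p).2 + s p.2 + d2 := by abel
    rw [e1] at g1
    have g2 := hsU p.2
    omega
  have tri : ∀ (z z' w w' g t : G), N (z + w + g) ≤ k.κ → N (z' + w' + g) ≤ k.κ → N (w + t + w') ≤ 9 * C →
      N (z + z' + t) ≤ 2 * k.κ + 9 * C := by
    intro z z' w w' g t q1 q2 q3
    have e1 : z + z' + t = (z + w + g) + (z' + w' + g) + (w + t + w') := by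
      have : (z + w + g) + (z' + w' + g) + (w + t + w') = (w + w) + (g + g) + (w' + w') + (z + z' + t) := by
        abel
      rw [this]
      simp only [two, zero_add]
    rw [e1]
    have g2 := h.Nadd ((z + w + g) + (z' + w' + g)) (w + t + w')
    have g3 := h.Nadd (z + w + g) (z' + w' + g)
    omega
  have hsw : ∀ z w g t : G, z + t + w = z + w + t := fun z w _ t => by abel
  have tx : N (vx (ln (a + d, b)).1 + vx (ln (a, b)).1 + s d) ≤ 2 * k.κ + 9 * C := by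
    have q3 : N (s (a + d) + s d + s a) ≤ 9 * C := by
      have := hsadd a d
      have e1 : s (a + d) + s d + s a = s a + s d + s (a + d) := by abel
      rwa [e1]
    exact tri _ _ (s (a + d)) (s a) d1 (s d) X2 X1 q3
  have ty : N (vy (ln (a, b)).2 + vy (ln (a, b + d)).2 + s d) ≤ 2 * k.κ + 9 * C :=
    tri _ _ (s b) (s (b + d)) d2 (s d) Y1 Y3 (hsadd b d)
  -- rename
  set x1 := (ln (a, b)).1 with hx1
  set y1 := (ln (a, b)).2 with hy1
  set x2 := (ln (a + d, b)).1 with hx2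
  set y3 := (ln (a, b + d)).2 with hy3
  have L2 : ln (a + d, b) = (x2, y1) := Prod.ext rfl hy.symm
  have L3 : ln (a, b + d) = (x1, y3) := Prod.ext hx.symm rfl
  have L1' : ln (a, b) = (x1, y1) := rfl
  rw [L2] at A2 hu
  rw [L3] at A3 hu
  rw [L1'] at A1
  have r1 : N (pxy x2 y1 + pxy x1 y1 + My y1 (s d)) ≤ C := by
    refine hc1 x2 x1 y1 A2 A1 (hcx _ m2) (hcx _ m1) ?_ (s d) (hsK d) hsLm tx
    have e1 := kc1
    rw [← hy] at e1
    exact e1.symm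
  have r2 : N (pxy x1 y1 + pxy x1 y3 + Mx x1 (s d)) ≤ C := by
    refine hc2 x1 y1 y3 A1 A3 (hcy _ m1) (hcy _ m3) ?_ (s d) (hsK d) hsLm ty
    have := kc2
    rw [L3] at this
    exact this
  have r3 : N (pxu x2 (th (x2, y1)) + pxu x1 (th (x2, y1)) + Mu (th (x2, y1)) (s d)) ≤ C := by
    refine hc3 (x2, y1) A2 (x1, y3) A3 hu (hcx _ m2) (hcx _ m1) ?_ (s d) (hsK d) hsLm tx
    have e1 := kc31.symm.trans kc32
    rw [L2, L3] at e1
    simp only at e1 ⊢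
    rw [← hu] at e1
    exact e1
  have r4' : N (sq x2 + sq x1 + φ (s d)) ≤ C := by
    refine hc4 (x2, y1) A2 (x1, y3) A3 (hcx _ m2) (hcx _ m1) ?_ (s d) (hsK d) hsLm tx
    have e1 := kc41.symm.trans kc42
    rw [L3] at e1
    exact e1
  have r5 : N (sq x2 + pxy x2 y1 + pxu x2 (th (x2, y1))) ≤ C := hd.ident _ A2
  have r6 : N (sq x1 + pxy x1 y3 + pxu x1 (th (x2, y1))) ≤ C := by
    have := hd.ident _ A3
    rw [← hu] at this
    exact this
  have r7 : N (Mx x2 (s d) + My y1 (s d) + Mu (th (x2, y1)) (s d)) ≤ C := hd.hsum _ A2 (s d) (hsK d) hsLm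
  have hfin := seven two h.Nadd r4' r5 r6 r1 r2 r3 r7
  -- contraction
  have hΛf : ∀ r, ∀ a ∈ K, ∀ b ∈ K, N (a + b) ≤ r → Reach N K R (k.Λ r) a b := by
    intro r a ha b hb hab
    obtain ⟨l, hl, w, hw0, hwl, hwK, hw⟩ := hd.chainΛ r a ha b hb hab
    have g1 := reach_fun (K := K) hwK (l := l) hw
    rw [hw0, hwl] at g1
    exact reach_mono h hb g1 hl
  have hτ' : τ x1 = τ x2 := kt
  have hMK : ∀ x y, (x, y) ∈ A → ∀ u ∈ K, N u ≤ Lm → ∃ v ∈ K, N (Mx x u + v) ≤ C :=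
    fun x y hxy u hu huL => hd.MxK (x, y) hxy u hu huL
  have hMadd : ∀ x y, (x, y) ∈ A → ∀ u ∈ K, ∀ v ∈ K, ∀ w ∈ K, N u ≤ Lm → N v ≤ Lm → N w ≤ Lm →
      N (Mx x u + Mx x v + Mx x w) ≤ F (N (u + v + w)) :=
    fun x y hxy u hu v hv w hw q1 q2 q3 => hd.Mxadd (x, y) hxy u hu v hv w hw q1 q2 q3
  have hLc : Lc C R F2 k.Λ k.ρ Ca (7 * C) S ≤ Lm := by omega
  have hfinal := contraction_loc h hΛf (F := F2) F2mono (φ := φ) (ρ := k.ρ) (Ca := Ca) (C1 := 7 * C) (S := S)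
    (Lm := Lm) hLc hd.φ0
    (fun a ha b hb haL hbL => (hd.φinv a ha b hb haL hbL).trans (by
      show F _ ≤ 2 * F _
      omega))
    (fun u hu huL => by
      obtain ⟨v, hv, hv1, hv2⟩ := hd.φdense u hu huL
      refine ⟨v, hv, hv1, hv2.trans ?_⟩
      show F _ ≤ 2 * F _
      omega)
    (T := fun f => Mx x1 f + Mx x2 f)
    (fun u hu huL => by
      obtain ⟨v, hv, hv'⟩ := hMK x1 y1 A1 u hu huL
      obtain ⟨w, hw, hw'⟩ := hMK x2 y1 A2 u hu huL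
      obtain ⟨z, hz, hz'⟩ := h.add v hv w hw
      refine ⟨z, hz, ?_⟩
      have e1 : Mx x1 u + Mx x2 u + z = (Mx x1 u + v) + (Mx x2 u + w) + (v + w + z) := by
        have : (Mx x1 u + v) + (Mx x2 u + w) + (v + w + z) =
            (v + v) + (w + w) + (Mx x1 u + Mx x2 u + z) := by abel
        rw [this]
        simp only [two, zero_add]
      show N (Mx x1 u + Mx x2 u + z) ≤ 7 * C
      rw [e1]
      have g2 := h.Nadd ((Mx x1 u + v) + (Mx x2 u + w)) (v + w + z)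
      have g3 := h.Nadd (Mx x1 u + v) (Mx x2 u + w)
      omega)
    (fun u hu v hv w hw q1 q2 q3 => by
      have g1 := hMadd x1 y1 A1 u hu v hv w hw q1 q2 q3
      have g2 := hMadd x2 y1 A2 u hu v hv w hw q1 q2 q3
      show N (Mx x1 u + Mx x2 u + (Mx x1 v + Mx x2 v) + (Mx x1 w + Mx x2 w)) ≤ 2 * F _
      have e1 : Mx x1 u + Mx x2 u + (Mx x1 v + Mx x2 v) + (Mx x1 w + Mx x2 w) =
          (Mx x1 u + Mx x1 v + Mx x1 w) + (Mx x2 u + Mx x2 v + Mx x2 w) := by abel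
      rw [e1]
      have g3 := h.Nadd (Mx x1 u + Mx x1 v + Mx x1 w) (Mx x2 u + Mx x2 v + Mx x2 w)
      omega)
    (fun f hf hfr => hτ x1 ⟨y1, A1⟩ x2 ⟨y1, A2⟩ hτ' f hf hfr)
    (hsK d) hsL' hfin
  have hf1 : N (s d) ≤ l0 := hfinal
  have hf2 := hsL d hd0
  omega

end Pool.Agent.helper57.MF
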