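import Pool.Agent.helper20.MF.MulT
import Pool.Agent.helper35.MF.PhiS
import Pool.Agent.helper36.MF.Collar
import Pool.Agent.MF.SlotB
import Pool.Agent.helper16.MF.S7In

set_option autoImplicit false

/-!
# MP_141f81: the input `In7` of Sections 7 and 8 from the rows
-/

namespace Pool.Agent.helper57.MF

open Finset Pool.Agent.MF
open Pool.Agent.helper35.MF (Ball ball_add CoarseF wd sy phi phiv HH phi_fields_Tt)
open Pool.Agent.helper16.MF (C7 Slot In7)
open Pool.Agent.helper20.MF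
open Pool.Agent.helper36.MF (FB MB NL)

/-- the constants -/
noncomputable def k7 (V : Type) [Fintype V] (K q C0 : ℕ) (κ : ℝ) : C7 where
  κ := 2
  l1 := 17
  l0 := FB V K q C0
  M0 := MB V K q C0
  a := ⌈κ⁻¹⌉₊
  b3 := 1
  b5 := 1
  K3 := covK κ (Fintype.card V) 2
  K5 := covK κ (Fintype.card V) 4
  Kd := 2 ^ FB V K q C0 * (NL V 3 * K)
  C b := MB V K q C0 ^ HH b (FB V K q C0) 17
  c0 := ⌈κ⁻¹⌉₊
  e0 := 1

section

variable {V : Type} [AddCommGroup V] [Fintype V] [DecidableEq V] {M : Mat V} {n : ℕ}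
  {R S : Finset (V → Fin n)} {Lin : Finset V} {a b : V} {A B sq : V → V}

theorem Mlt_gen {L : Finset V} {w : V} {A : V → V} (hE : Exact M R) (hSR : S ⊆ R)
    (hA : ∀ v ∈ L, M.InCl {w, v} (A v)) (hA' : ∀ v ∈ L, M.InCl {w, A v} v) {x : Fin n} {q : V × Fin n}
    (hq : q ∈ PL M {w} L (thr S (w, x))) :
    ∃ q' ∈ PL M ∅ univ S, MM R L w A x (sy q) = sy q' := by
  obtain ⟨ρ, hρ, v, hv, hnv, rfl⟩ := mem_PL' hq
  rw [thr, mem_filter] at hρ
  refine ⟨(A v, ρ (A v)), PL_mk hρ.1 (mem_univ _) (SD_empty.2 ?_), ?_⟩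
  · exact SD_ne (out_of (τ := {w}) (mem_singleton_self _) hnv (hA' v hv))
  · exact MM_lt hE hA hv (hSR hρ.1) hρ.2

/-- **the input of Sections 7 and 8** -/
theorem in7_of (hK : KillAlg M Lin a b A B sq) {κ : ℝ} {K q C0 : ℕ} (hn : 0 < n) (hκ : 0 < κ) (hE : Exact M R)
    (hJ : JCOut M univ κ R S) (hS : S.Nonempty) {D F : Set (G V n)} (Dfin : D.Finite)
    (coarse : CoarseF (Tt M ∅ univ R S) D F 2 17 (FB V K q C0)) (sym : ∀ x ∈ PL M ∅ univ S, sy x ∈ D)
    (ballD : ∀ u ∈ D, {v | v ∈ D ∧ u + v ∈ Ball (Tt M ∅ univ R S) ((17 + 6) * 2 + 1)}.ncard ≤ MB V K q C0)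
    (cons : ∀ b, ∀ p ∈ PL M ∅ univ S, ∀ Q ⊆ PL M ∅ univ S, (∀ y ∈ Q, sy p + sy y ∈ Ball (Tt M ∅ univ R S) b) →
      Q.card ≤ MB V K q C0 ^ HH b (FB V K q C0) 17)
    (covD : ∀ W : Finset (G V n), (∀ w ∈ W, ∃ f ∈ D, ∃ p ∈ PL M ∅ univ S, w = f + sy p) →
      (∀ w ∈ W, ∀ w' ∈ W, w ≠ w' → w + w' ∉ Ball (Tt M ∅ univ R S) 1) →
      W.card ≤ 2 ^ FB V K q C0 * (NL V 3 * K) * n) :
    In7 (k7 V K q C0 κ) n (PL M ∅ univ S) (Tt M ∅ univ R S) D F (A0 S a b) (fun p => pp R (a + b) p.1 p.2)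
      (fun p q => pp R (A b) p q) (fun p u => pp R (A (a + b)) p u) (fun p => pp R (sq p.1) p p)
      (fun p => Tt M {p.1} Lin (thr R p) (thr S p)) (fun p => PL M {p.1} Lin (thr S p)) (Ml R Lin a b A B)
      (fun p => Tt M {p.1.1, p.2.1} Lin (thr2 R p) (thr2 S p)) (fun p => PL M {p.1.1, p.2.1} Lin (thr2 S p))
      (Tt M ∅ Lin R S) (phi R Lin sq '' Tt M ∅ Lin R S) (PL M ∅ Lin S) ((PL M ∅ Lin S).image (phiv R Lin sq))
      (phi R Lin sq) := by
  have hSR : S ⊆ R := hJ.1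
  have hka := ka_of hK.ind
  have hcab : M.InCl {a, b} (a + b) := incl_add (incl_mem (by simp)) (incl_mem (by simp))
  have hlab : a + b ∈ Lin := hK.lin.add a hK.a_mem b hK.b_mem
  have hc : 1 ≤ κ * (⌈κ⁻¹⌉₊ : ℕ) := by
    have h1 := Nat.le_ceil κ⁻¹
    calc (1 : ℝ) = κ * κ⁻¹ := by rw [mul_inv_cancel₀ hκ.ne']
      _ ≤ κ * (⌈κ⁻¹⌉₊ : ℕ) := mul_le_mul_of_nonneg_left h1 hκ.le
  have hr := rowOut hK hn hc hE hJ
  obtain ⟨f1, f2, f3, f4, f5, f6, f7, f8⟩ := phi_fields_Tt hK hE hSR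
  have hrk1 : ∀ v : V, M.rk {v} ≤ 2 := fun v => by
    have h1 := M.rk_insert_le v ∅
    have h2 := M.rk_empty
    have e : (insert v ∅ : Finset V) = {v} := rfl
    rw [e] at h1
    omega
  have hrk2 : M.rk {a, b} ≤ 2 := hK.ind.le
  have hadd := hK.lin.add
  have slot1 : ∀ ρ ∈ S, ∀ v : V, Slot (k7 V K q C0 κ) n (Tt M ∅ univ R S)
      (Tt M {v} Lin (thr R (v, ρ v)) (thr S (v, ρ v))) (PL M {v} Lin (thr S (v, ρ v))) := by
    intro ρ hρ v
    have h := slot_frame hn hκ hE hJ hK.lin (τ := {v}) (hrk1 v) subset_rfl hadd hρ (k := k7 V K q C0 κ) rfl rfl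
      (Nat.le_ceil _) le_rfl le_rfl
    rwa [sub_eq_thr, sub_eq_thr] at h
  exact
    { npos := hn
      coarse := coarse
      Dfin := Dfin
      sym := sym
      ballD := ballD
      cons := cons
      covD := covD
      dens := hr.dens
      Ax := hr.Ax
      Ay := hr.Ay
      Au := hr.Au
      Plx := fun p _ => hr.Pl _
      Ply := fun p _ => hr.Pl _
      Plu := fun p _ => hr.Pl _
      P1S := f1
      PsS := f2
      line := hr.line
      ident := hr.ident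
      slx := by
        intro p hp
        obtain ⟨ρ, hρ, rfl⟩ := A0_mem hp
        exact slot1 ρ hρ a
      sly := by
        intro p hp
        obtain ⟨ρ, hρ, rfl⟩ := A0_mem hp
        exact slot1 ρ hρ b
      slu := by
        intro p hp
        obtain ⟨ρ, hρ, rfl⟩ := A0_mem hp
        simp only [pp_eq hE hcab (hSR hρ)]
        exact slot1 ρ hρ (a + b)
      slm := by
        intro p hp
        obtain ⟨ρ, hρ, rfl⟩ := A0_mem hp
        have h := slot_frame hn hκ hE hJ hK.lin (τ := {a, b}) hrk2 subset_rfl hadd hρ (k := k7 V K q C0 κ) rfl rfl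
          (Nat.le_ceil _) le_rfl le_rfl
        rwa [sub_eq_thr2, sub_eq_thr2] at h
      sl1 := slot_top hn hκ hE hJ hK.lin subset_rfl hadd hS rfl rfl (Nat.le_ceil _) le_rfl le_rfl
      Tss := f3
      Tmx := hr.Tmx
      Tmy := hr.Tmy
      Tmu := hr.Tmu
      Pmx := hr.Pmx
      Pmy := hr.Pmy
      Pmu := hr.Pmu
      Mlx := hr.Mlx
      Mly := hr.Mly
      Mlu := hr.Mlu
      Mltx := hr.Mlt
      Mlty := by
        intro p hp q hq
        obtain ⟨ρ, hρ, rfl⟩ := A0_mem hp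
        show ∃ q' ∈ PL M ∅ univ S, Ml R Lin a b A B (b, ρ b) (sy q) = sy q'
        rw [Ml_b hka.ab.symm]
        exact Mlt_gen hE hSR hK.B_cl hK.B_cl' hq
      Mltu := by
        intro p hp q hq
        obtain ⟨ρ, hρ, rfl⟩ := A0_mem hp
        simp only [pp_eq hE hcab (hSR hρ)] at hq ⊢
        rw [Ml_u (by
          intro h
          apply hka.b0
          have h1 := sum_cancel M a b
          rw [h, M.two] at h1
          exact h1.symm) (by
          intro h
          apply hka.a0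
          have h1 := sum_cancel M b a
          rw [add_comm b a, h, M.two] at h1
          exact h1.symm)]
        exact Mlt_gen hE hSR hK.C_cl hK.C_cl' hq
      Msum := hr.Msum
      yx := hr.yx
      xy := hr.xy
      ux := hr.ux
      φx := by
        intro p hp
        obtain ⟨ρ, hρ, rfl⟩ := A0_mem hp
        obtain ⟨g1, g2⟩ := f4 ρ hρ
        refine ⟨g1, ?_⟩
        have hsqa : M.InCl {a, a} (sq a) := by
          have := hK.sq_cl a hK.a_mem
          rwa [show ({a, a} : Finset V) = {a} by simp]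
        show phi R Lin sq (sy (a, ρ a)) = sy (pp R (sq a) (a, ρ a) (a, ρ a))
        rw [pp_eq hE hsqa (hSR hρ)]
        exact g2
      φT := f5
      φP := f6
      φPs := f7
      φiso := f8 }

end

end Pool.Agent.helper57.MF
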