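import Pool.Agent.helper57.MF.Contr

set_option autoImplicit false

/-!
# MP_141f81, Section 8: finitely many types of multiplications on a ball
-/

namespace Pool.Agent.helper57.MF

open Pool.Agent.helper35.MF Finset

variable {G : Type*} [AddCommGroup G] {N : G → ℕ} {K : Set G} {C R : ℕ} {β : ℕ → ℕ}

/-- Up to an error `4 C + 2 (F C + F 0)`, which does not depend on the radius `r`, there are only boundedly many
coarsely additive maps on the ball of radius `r`. -/
theorem types (h : CGroup N K C R β) {F : ℕ → ℕ} (mono : Monotone F) {r Lm : ℕ} (hr : r + C ≤ Lm)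
    {X : Type*} (M : X → G → G) (A : Set X)
    (hMK : ∀ x ∈ A, ∀ u ∈ K, N u ≤ Lm → ∃ v ∈ K, N (M x u + v) ≤ C)
    (hM : ∀ x ∈ A, ∀ u ∈ K, ∀ v ∈ K, ∀ w ∈ K, N u ≤ Lm → N v ≤ Lm → N w ≤ Lm →
      N (M x u + M x v + M x w) ≤ F (N (u + v + w))) :
    ∃ τ : X → Fin (β (F (r + C) + C) ^ β r + 1), ∀ x ∈ A, ∀ x' ∈ A, τ x = τ x' → ∀ f ∈ K, N f ≤ r →
      N (M x f + M x' f) ≤ 4 * C + 2 * (F C + F 0) := by
  classical
  obtain ⟨S, hSc, hSK, hS⟩ := h.cover r
  obtain ⟨S', hSc', hSK', hS'⟩ := h.cover (F (r + C) + C)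
  obtain ⟨s0, hs0, -⟩ := hS' 0 h.zero (by rw [h.N0]; exact Nat.zero_le _)
  have hN0 : N (0 : G) ≤ Lm := by rw [h.N0]; exact Nat.zero_le _
  have hM0 : ∀ x ∈ A, N (M x 0) ≤ F 0 := by
    intro x hx
    have h1 := hM x hx 0 h.zero 0 h.zero 0 h.zero hN0 hN0 hN0
    rw [h.two (M x 0), zero_add, add_zero, add_zero, h.N0] at h1
    exact h1
  have hpt : ∀ x, ∀ s : S, ∃ q : S', x ∈ A → N (s : G) ≤ r + C → N (M x s + q) ≤ 2 * C := by
    intro x s
    by_cases hx : x ∈ A
    · by_cases hs : N (s : G) ≤ r + C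
      · obtain ⟨v, hv, hv'⟩ := hMK x hx s (hSK s s.2) (hs.trans hr)
        have g1 : N (M x s) ≤ F (r + C) := by
          have h1 := hM x hx s (hSK s s.2) 0 h.zero 0 h.zero (hs.trans hr) hN0 hN0
          rw [add_assoc, h.two (M x 0), add_zero, add_zero, add_zero] at h1
          exact h1.trans (mono hs)
        have g2 : N v ≤ F (r + C) + C := by
          have h1 := h.le_add v (M x s)
          rw [add_comm v (M x s)] at h1
          omega
        obtain ⟨q, hq, hq'⟩ := hS' v hv g2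
        refine ⟨⟨q, hq⟩, fun _ _ => ?_⟩
        have h1 := Nsum h (M x s) v q
        show N (M x s + q) ≤ 2 * C
        omega
      · exact ⟨⟨s0, hs0⟩, fun _ h1 => absurd h1 hs⟩
    · exact ⟨⟨s0, hs0⟩, fun h1 => absurd h1 hx⟩
  choose q hq using hpt
  have hcard : Fintype.card (S → S') ≤ Fintype.card (Fin (β (F (r + C) + C) ^ β r + 1)) := by
    rw [Fintype.card_fun, Fintype.card_coe, Fintype.card_coe, Fintype.card_fin]
    have hpos : 0 < S'.card := Finset.card_pos.mpr ⟨s0, hs0⟩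
    calc S'.card ^ S.card ≤ S'.card ^ β r := Nat.pow_le_pow_right hpos hSc
      _ ≤ β (F (r + C) + C) ^ β r := Nat.pow_le_pow_left hSc' _
      _ ≤ _ := Nat.le_succ _
  obtain ⟨ι⟩ := Function.Embedding.nonempty_of_card_le hcard
  refine ⟨fun x => ι (q x), fun x hx x' hx' he f hf hfr => ?_⟩
  have heq : q x = q x' := ι.injective he
  obtain ⟨s, hs, hfs⟩ := hS f hf hfr
  have hsN : N s ≤ r + C := by
    have h1 := h.le_add s f
    rw [add_comm s f] at h1
    omega
  have hone : ∀ x ∈ A, N (M x f + M x s) ≤ F C + F 0 := by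
    intro x hx
    have h1 := hM x hx f hf s (hSK s hs) 0 h.zero (by omega) (by omega) hN0
    rw [add_zero] at h1
    have h2 := h.le_add (M x f + M x s) (M x 0)
    have h3 := hM0 x hx
    have h4 := mono hfs
    omega
  have a1 := hone x hx
  have a2 := hone x' hx'
  have a3 := hq x ⟨s, hs⟩ hx hsN
  have a4 := hq x' ⟨s, hs⟩ hx' hsN
  rw [← heq] at a4
  have a3' : N (M x s + (q x ⟨s, hs⟩ : G)) ≤ 2 * C := a3
  have a4' : N (M x' s + (q x ⟨s, hs⟩ : G)) ≤ 2 * C := a4
  have b1 := Nsum h (M x f) (M x s) (M x' f)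
  have b2 := Nsum h (M x s) (q x ⟨s, hs⟩ : G) (M x' f)
  have b3 := Nsum h (q x ⟨s, hs⟩ : G) (M x' s) (M x' f)
  rw [add_comm (q x ⟨s, hs⟩ : G) (M x' s), add_comm (M x' s) (M x' f)] at b3
  omega

end Pool.Agent.helper57.MF
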